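import Pool.Agent.Lib.HS.D.Spec

/-!
PROJECT HS, part (D), module Alt: alternants vanish modulo `π ^ (r (r - 1) / 2)`.
-/

set_option autoImplicit false

open MvPolynomial

noncomputable section

namespace Pool.Agent.Lib.HS.D

namespace AltAux

lemma range_le (T : Finset ℕ) : ∑ i ∈ Finset.range T.card, i ≤ ∑ x ∈ T, x := by
  induction T using Finset.induction_on_max with
  | empty => simp
  | insert m S hS ih =>
    have hm : m ∉ S := fun h => lt_irrefl _ (hS m h)
    rw [Finset.card_insert_of_notMem hm, Finset.sum_range_succ, Finset.sum_insert hm]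
    have h1 : S.card ≤ m := by
      have h2 : S ⊆ Finset.range m := fun x hx => Finset.mem_range.2 (hS x hx)
      have h3 := Finset.card_le_card h2
      rwa [Finset.card_range] at h3
    omega

lemma inj_le {r : ℕ} (s : Fin r → ℕ) (hs : Function.Injective s) : r * (r - 1) / 2 ≤ ∑ a, s a := by
  have h1 := range_le (Finset.univ.image s)
  rw [Finset.card_image_of_injective _ hs, Finset.card_univ, Fintype.card_fin, Finset.sum_range_id,
    Finset.sum_image (fun a _ b _ h => hs h)] at h1
  exact h1

end AltAux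

open AltAux in
theorem tAlt : S_Alt := by
  intro R _ π r y f hπ
  classical
  -- a common degree bound
  obtain ⟨D, hD⟩ : ∃ D : ℕ, ∀ a, (f a).natDegree < D := by
    refine ⟨(∑ a, (f a).natDegree) + 1, fun a => ?_⟩
    have := Finset.single_le_sum (f := fun a => (f a).natDegree) (fun i _ => Nat.zero_le _)
      (Finset.mem_univ a)
    exact Nat.lt_succ_of_le this
  rw [← Matrix.det_transpose]
  have h1 : (Matrix.of fun i a => (f a).eval (π * y i)).transpose =
      fun a => ∑ l : Fin D, ((f a).coeff l * π ^ (l : ℕ)) • (fun i : Fin r => y i ^ (l : ℕ)) := by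
    funext a i
    rw [Matrix.transpose_apply, Matrix.of_apply, Polynomial.eval_eq_sum_range' (hD a), Finset.sum_apply,
      ← Fin.sum_univ_eq_sum_range (fun l => (f a).coeff l * (π * y i) ^ l) D]
    apply Finset.sum_congr rfl
    intro l _
    rw [Pi.smul_apply, smul_eq_mul, mul_pow]
    ring
  rw [h1]
  have h2 : Matrix.det (fun a => ∑ l : Fin D, ((f a).coeff l * π ^ (l : ℕ)) •
        (fun i : Fin r => y i ^ (l : ℕ))) =
      ∑ s : Fin r → Fin D, Matrix.det (fun a => ((f a).coeff (s a) * π ^ ((s a : Fin D) : ℕ)) •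
        (fun i : Fin r => y i ^ ((s a : Fin D) : ℕ))) :=
    MultilinearMap.map_sum (Matrix.detRowAlternating (R := R) (n := Fin r)).toMultilinearMap
      (fun a (l : Fin D) => ((f a).coeff l * π ^ (l : ℕ)) • (fun i : Fin r => y i ^ (l : ℕ)))
  rw [h2]
  apply Finset.sum_eq_zero
  intro s _
  have h3 : Matrix.det (fun a => ((f a).coeff (s a) * π ^ ((s a : Fin D) : ℕ)) •
        (fun i : Fin r => y i ^ ((s a : Fin D) : ℕ))) =
      (∏ a, ((f a).coeff (s a) * π ^ ((s a : Fin D) : ℕ))) *
        Matrix.det (fun a i => y i ^ ((s a : Fin D) : ℕ)) :=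
    Matrix.det_mul_column (fun a => (f a).coeff (s a) * π ^ ((s a : Fin D) : ℕ))
      (fun a i => y i ^ ((s a : Fin D) : ℕ))
  rw [h3]
  by_cases hs : Function.Injective s
  · have h4 : r * (r - 1) / 2 ≤ ∑ a, ((s a : Fin D) : ℕ) :=
      inj_le (fun a => ((s a : Fin D) : ℕ)) (fun a b h => hs (Fin.ext h))
    have h5 : π ^ (∑ a, ((s a : Fin D) : ℕ)) = 0 := by
      rw [← Nat.sub_add_cancel h4, pow_add, hπ, mul_zero]
    rw [Finset.prod_mul_distrib, Finset.prod_pow_eq_pow_sum, h5, mul_zero, zero_mul]
  · have h6 : ∃ a b, s a = s b ∧ a ≠ b := by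
      by_contra hcon
      push Not at hcon
      exact hs (fun a b h => hcon a b h)
    obtain ⟨a, b, hab, hne⟩ := h6
    rw [Matrix.det_zero_of_row_eq hne (by funext i; rw [hab]), mul_zero]

end Pool.Agent.Lib.HS.D
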