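import Pool.Agent.Lib.HS.D.Spec

/-!
# PROJECT HS, part (D), module Bez (helper30): the bound of Bezout
-/

set_option autoImplicit false

open MvPolynomial

noncomputable section

namespace Pool.Agent.Lib.HS.D

namespace BezAux

/-- the number of monomials of degree `m` -/
def s (m : ℕ) : ℕ := (m + 2).choose m

lemma two_s (m : ℕ) : 2 * s m = (m + 1) * (m + 2) := by
  have h : s m = (m + 2).choose 2 := by
    unfold s
    exact Nat.choose_symm_add
  rw [h, Nat.choose_two_right, show m + 2 - 1 = m + 1 by omega, mul_comm (m + 2) (m + 1)]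
  exact Nat.mul_div_cancel' (Nat.even_mul_succ_self (m + 1)).two_dvd

/-- forms of degree `m` -/
abbrev S (m : ℕ) : Submodule ℚ Q3 := homogeneousSubmodule (Fin 3) ℚ m

instance finS (m : ℕ) : Module.Finite ℚ (S m) :=
  Module.Finite.iff_fg.2 (homogeneousSubmodule_fg (Fin 3) ℚ m)

lemma rk (m : ℕ) : Module.finrank ℚ (S m) = s m := by
  have e1 : (({d : Fin 3 →₀ ℕ | d.degree = m}) : Set (Fin 3 →₀ ℕ)) =
      ((Finset.finsuppAntidiag (Finset.univ : Finset (Fin 3)) m : Finset (Fin 3 →₀ ℕ)) :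
        Set (Fin 3 →₀ ℕ)) := by
    ext d
    rw [Set.mem_ofPred_eq, Finset.mem_coe, Finset.mem_finsuppAntidiag, Finsupp.degree_eq_sum]
    exact ⟨fun h => ⟨h, Finset.subset_univ _⟩, fun h => h.1⟩
  have e2 : S m = AddMonoidAlgebra.supported ℚ ℚ
      ((Finset.finsuppAntidiag (Finset.univ : Finset (Fin 3)) m : Finset (Fin 3 →₀ ℕ)) :
        Set (Fin 3 →₀ ℕ)) := by
    rw [← e1]
    exact homogeneousSubmodule_eq_finsupp_supported (Fin 3) ℚ m
  rw [e2, (AddMonoidAlgebra.supportedEquivFinsupp _).finrank_eq]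
  rw [Module.finrank_finsupp_self]
  have e3 : Fintype.card ((Finset.finsuppAntidiag (Finset.univ : Finset (Fin 3)) m :
      Finset (Fin 3 →₀ ℕ)) : Set (Fin 3 →₀ ℕ)) =
      (Finset.finsuppAntidiag (Finset.univ : Finset (Fin 3)) m).card := Fintype.card_coe _
  rw [e3, Finset.card_finsuppAntidiag_nat_eq_choose]
  simp only [Finset.card_univ, Fintype.card_fin, s]
  congr 1
  omega

/-- a linear form -/
lemma lin {n n' : Pt} (h : ¬ Par n n') : ∃ L : Q3, L.IsHomogeneous 1 ∧ ev n L ≠ 0 ∧ ev n' L = 0 := by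
  unfold Par at h
  push Not at h
  obtain ⟨i, j, hij⟩ := h
  refine ⟨C (n' j : ℚ) * X i - C (n' i : ℚ) * X j, ?_, ?_, ?_⟩
  · refine IsHomogeneous.sub ?_ ?_
    · exact (isHomogeneous_C_mul_X _ _)
    · exact (isHomogeneous_C_mul_X _ _)
  · simp only [ev, map_sub, map_mul, eval_C, eval_X]
    intro h0
    apply hij
    have h1 : ((n i * n' j : ℤ) : ℚ) = ((n j * n' i : ℤ) : ℚ) := by push_cast; linarith
    exact_mod_cast h1
  · simp only [ev, map_sub, map_mul, eval_C, eval_X]
    ring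

/-- separation of the points -/
lemma sep {E : Finset Pt} (hE : Indep E) {m : ℕ} (hm : E.card ≤ m) {n : Pt} (hn : n ∈ E) :
    ∃ f : Q3, f.IsHomogeneous m ∧ ev n f ≠ 0 ∧ ∀ n' ∈ E, n' ≠ n → ev n' f = 0 := by
  have h1 : ∀ n' ∈ E.erase n, ∃ L : Q3, L.IsHomogeneous 1 ∧ ev n L ≠ 0 ∧ ev n' L = 0 := by
    intro n' hn'
    rw [Finset.mem_erase] at hn'
    exact lin (hE.2 n hn n' hn'.2 (Ne.symm hn'.1))
  choose! L hL1 hL2 hL3 using h1
  obtain ⟨i, hi⟩ : ∃ i, n i ≠ 0 := by
    by_contra hc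
    push Not at hc
    exact hE.1 n hn (funext hc)
  have hc : (E.erase n).card = E.card - 1 := Finset.card_erase_of_mem hn
  refine ⟨(∏ n' ∈ E.erase n, L n') * X i ^ (m - (E.erase n).card), ?_, ?_, ?_⟩
  · have h2 : (∏ n' ∈ E.erase n, L n').IsHomogeneous (∑ n' ∈ E.erase n, 1) :=
      IsHomogeneous.prod _ _ _ hL1
    have h3 := h2.mul (((isHomogeneous_X ℚ i).pow (m - (E.erase n).card)))
    rw [Finset.sum_const, smul_eq_mul, mul_one, one_mul] at h3
    have h4 : (E.erase n).card + (m - (E.erase n).card) = m := by omega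
    rwa [h4] at h3
  · simp only [ev, map_mul, map_prod, map_pow, eval_X]
    refine mul_ne_zero (Finset.prod_ne_zero_iff.2 fun n' hn' => hL2 n' hn') ?_
    exact pow_ne_zero _ (by exact_mod_cast hi)
  · intro n' hn' hne
    simp only [ev, map_mul, map_prod]
    have h2 : n' ∈ E.erase n := Finset.mem_erase.2 ⟨hne, hn'⟩
    have h3 : ∏ x ∈ E.erase n, eval (fun i => (n' i : ℚ)) (L x) = 0 :=
      Finset.prod_eq_zero h2 (hL3 n' h2)
    rw [h3, zero_mul]

/-- evaluation at the points of `E` -/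
def psi (E : Finset Pt) : Q3 →ₗ[ℚ] (E → ℚ) :=
  LinearMap.pi fun n => (aeval (fun i => (n.1 i : ℚ)) : Q3 →ₐ[ℚ] ℚ).toLinearMap

lemma psi_apply (E : Finset Pt) (f : Q3) (n : E) : psi E f n = ev n.1 f := by
  show (aeval (fun i => (n.1 i : ℚ)) : Q3 →ₐ[ℚ] ℚ) f = _
  rw [ev, ← coe_aeval_eq_eval]
  rfl

lemma surj {E : Finset Pt} (hE : Indep E) {m : ℕ} (hm : E.card ≤ m) :
    LinearMap.range ((psi E).domRestrict (S m)) = ⊤ := by
  rw [eq_top_iff]
  intro v _
  have h1 : ∀ n : E, ∃ f : Q3, f.IsHomogeneous m ∧ ev n.1 f ≠ 0 ∧ ∀ n' ∈ E, n' ≠ n.1 → ev n' f = 0 :=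
    fun n => sep hE hm n.2
  choose f hf1 hf2 hf3 using h1
  refine ⟨⟨∑ n : E, (v n / ev n.1 (f n)) • f n, ?_⟩, ?_⟩
  · refine Submodule.sum_mem _ fun n _ => Submodule.smul_mem _ _ ?_
    exact hf1 n
  · rw [LinearMap.domRestrict_apply]
    simp only
    rw [map_sum]
    ext n
    rw [Finset.sum_apply, Finset.sum_eq_single n]
    · rw [map_smul, Pi.smul_apply, psi_apply, smul_eq_mul, div_mul_cancel₀ _ (hf2 n)]
    · intro n' _ hne
      rw [map_smul, Pi.smul_apply, psi_apply, hf3 n' n.1 n.2 (fun h => hne (Subtype.ext h.symm)),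
        smul_zero]
    · intro h
      exact absurd (Finset.mem_univ n) h

/-- multiplication by `F` -/
lemma mul_inj {F : Q3} (hF : F ≠ 0) : Function.Injective (LinearMap.mulLeft ℚ F) := by
  intro a b h
  simp only [LinearMap.mulLeft_apply] at h
  exact mul_left_cancel₀ hF h

lemma rk_map {F : Q3} (hF : F ≠ 0) (k : ℕ) :
    Module.finrank ℚ ((S k).map (LinearMap.mulLeft ℚ F)) = s k := by
  rw [← rk k]
  exact (Submodule.equivMapOfInjective _ (mul_inj hF) (S k)).finrank_eq.symm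

end BezAux

open BezAux

theorem tBez : S_HomMul → S_Bez := by
  intro hHM d h F H hFd hHh hF hFH E hE hEv
  have hF0 : F ≠ 0 := hF.ne_zero
  have hH0 : H ≠ 0 := by
    intro h0
    exact hFH (h0 ▸ dvd_zero F)
  obtain ⟨m, hm⟩ : ∃ m, m = E.card + d + h := ⟨_, rfl⟩
  let A : Submodule ℚ Q3 := (S (m - d)).map (LinearMap.mulLeft ℚ F)
  let B : Submodule ℚ Q3 := (S (m - h)).map (LinearMap.mulLeft ℚ H)
  let D : Submodule ℚ Q3 := (S (m - d - h)).map (LinearMap.mulLeft ℚ (F * H))
  have rA : Module.finrank ℚ A = s (m - d) := rk_map hF0 _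
  have rB : Module.finrank ℚ B = s (m - h) := rk_map hH0 _
  have rD : Module.finrank ℚ D = s (m - d - h) := rk_map (mul_ne_zero hF0 hH0) _
  -- the intersection
  have hAB : A ⊓ B ≤ D := by
    rintro x ⟨⟨a, ha, hxa⟩, ⟨b, hb, hxb⟩⟩
    rw [LinearMap.mulLeft_apply] at hxa hxb
    by_cases hx : x = 0
    · rw [hx]; exact Submodule.zero_mem _
    have hdvd : F ∣ b := by
      have h1 : F ∣ H * b := ⟨a, by rw [hxb, hxa]⟩
      rcases hF.prime.dvd_or_dvd h1 with h2 | h2
      · exact absurd h2 hFH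
      · exact h2
    obtain ⟨c, hc⟩ := hdvd
    have hb0 : F * c ≠ 0 := by
      rw [← hc]
      rintro rfl
      exact hx (by rw [← hxb, mul_zero])
    have hbh : (F * c).IsHomogeneous (m - h) := by rw [← hc]; exact hb
    obtain ⟨a1, b1, hab, hFa, hcb⟩ := hHM (m - h) F c hb0 hbh
    have h1 : a1 = d := hFa.inj_right hFd hF0
    have h2 : b1 = m - d - h := by omega
    refine ⟨c, ?_, ?_⟩
    · rw [← h2]; exact hcb
    · rw [LinearMap.mulLeft_apply, ← hxb, hc]
      ring
  have fA : Module.Finite ℚ A := inferInstanceAs (Module.Finite ℚ ((S (m - d)).map _))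
  have fB : Module.Finite ℚ B := inferInstanceAs (Module.Finite ℚ ((S (m - h)).map _))
  have fD : Module.Finite ℚ D := inferInstanceAs (Module.Finite ℚ ((S (m - d - h)).map _))
  have h1 := Submodule.finrank_sup_add_finrank_inf_eq A B
  have h2 : Module.finrank ℚ (A ⊓ B : Submodule ℚ Q3) ≤ s (m - d - h) := by
    rw [← rD]
    exact Submodule.finrank_mono hAB
  -- A ⊔ B is in the kernel
  have hm1 : A ⊔ B ≤ S m := by
    refine sup_le ?_ ?_
    · rintro x ⟨a, ha, rfl⟩
      have h3 : (F * a).IsHomogeneous (d + (m - d)) := hFd.mul ha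
      rw [show d + (m - d) = m by omega] at h3
      exact h3
    · rintro x ⟨a, ha, rfl⟩
      have h3 : (H * a).IsHomogeneous (h + (m - h)) := hHh.mul ha
      rw [show h + (m - h) = m by omega] at h3
      exact h3
  have hker : (A ⊔ B).comap (S m).subtype ≤ LinearMap.ker ((psi E).domRestrict (S m)) := by
    have h3 : A ⊔ B ≤ LinearMap.ker (psi E) := by
      refine sup_le ?_ ?_
      · rintro x ⟨a, ha, rfl⟩
        rw [LinearMap.mem_ker]
        ext n
        rw [psi_apply, LinearMap.mulLeft_apply, ev, map_mul]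
        have := (hEv n.1 n.2).1
        rw [ev] at this
        rw [this, zero_mul]
        rfl
      · rintro x ⟨a, ha, rfl⟩
        rw [LinearMap.mem_ker]
        ext n
        rw [psi_apply, LinearMap.mulLeft_apply, ev, map_mul]
        have := (hEv n.1 n.2).2
        rw [ev] at this
        rw [this, zero_mul]
        rfl
    intro x hx
    rw [LinearMap.mem_ker, LinearMap.domRestrict_apply]
    exact LinearMap.mem_ker.1 (h3 hx)
  have h4 : Module.finrank ℚ ((A ⊔ B).comap (S m).subtype) =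
      Module.finrank ℚ (A ⊔ B : Submodule ℚ Q3) :=
    (Submodule.comapSubtypeEquivOfLe hm1).finrank_eq
  have h5 := LinearMap.finrank_range_add_finrank_ker ((psi E).domRestrict (S m))
  have hqm : E.card ≤ m := by omega
  rw [surj hE hqm, finrank_top, rk m, Module.finrank_fintype_fun_eq_card, Fintype.card_coe] at h5
  have h6 := Submodule.finrank_mono hker
  rw [h4] at h6
  rw [rA, rB] at h1
  -- the numbers
  have key : E.card + s (m - d) + s (m - h) ≤ s m + s (m - d - h) := by omega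
  obtain ⟨q, hq⟩ : ∃ q, q = E.card := ⟨_, rfl⟩
  rw [← hq] at key hm ⊢
  have e1 : m - d = q + h := by omega
  have e2 : m - h = q + d := by omega
  have e3 : m - d - h = q := by omega
  rw [e3] at key
  rw [e1, e2, hm] at key
  have t0 := two_s (q + h)
  have t1 := two_s (q + d)
  have t2 := two_s (q + d + h)
  have t3 := two_s q
  nlinarith

end Pool.Agent.Lib.HS.D
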