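import Pool.Agent.Lib.HS.D.Spec

/-!
# PROJECT HS, part (D), module Ch: choice of 45 points
-/

set_option autoImplicit false

open MvPolynomial

noncomputable section

namespace Pool.Agent.Lib.HS.D

namespace ChAux

private theorem finrank_forms (n d : ℕ) :
    Module.finrank ℚ (homogeneousSubmodule (Fin (n + 1)) ℚ d) = (d + n).choose n := by
  classical
  have h1 : homogeneousSubmodule (Fin (n + 1)) ℚ d = Submodule.span ℚ (Set.range
      fun s : {s // s ∈ (Finset.univ : Finset (Fin (n + 1))).finsuppAntidiag d} =>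
        (monomial s.1 1 : MvPolynomial (Fin (n + 1)) ℚ)) := by
    rw [homogeneousSubmodule_eq_finsupp_supported, AddMonoidAlgebra.supported_eq_span_single]
    congr 1
    ext f
    constructor
    · rintro ⟨s, hs, rfl⟩
      refine ⟨⟨s, ?_⟩, rfl⟩
      rw [Finset.mem_finsuppAntidiag]
      refine ⟨?_, Finset.subset_univ _⟩
      rw [← Finsupp.degree_eq_sum]
      exact hs
    · rintro ⟨⟨s, hs⟩, rfl⟩
      refine ⟨s, ?_, rfl⟩
      rw [Finset.mem_finsuppAntidiag, ← Finsupp.degree_eq_sum] at hs
      exact hs.1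
  have h2 : LinearIndependent ℚ
      fun s : {s // s ∈ (Finset.univ : Finset (Fin (n + 1))).finsuppAntidiag d} =>
        (monomial s.1 1 : MvPolynomial (Fin (n + 1)) ℚ) := by
    have h3 := (basisMonomials (Fin (n + 1)) ℚ).linearIndependent.comp
      (fun s : {s // s ∈ (Finset.univ : Finset (Fin (n + 1))).finsuppAntidiag d} => s.1)
      Subtype.val_injective
    refine (linearIndependent_equiv' (Equiv.refl _) ?_).1 h3
    funext s
    change (monomial s.1 1 : MvPolynomial (Fin (n + 1)) ℚ) = basisMonomials (Fin (n + 1)) ℚ s.1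
    rw [coe_basisMonomials]
  rw [h1, finrank_span_eq_card h2, Fintype.card_coe, Finset.card_finsuppAntidiag_nat_eq_choose,
    Finset.card_univ, Fintype.card_fin]
  have h4 : n + 1 + d - 1 = d + n := by omega
  rw [h4]
  exact Nat.choose_symm_add

/-- evaluation at `n` as a functional on the octic forms -/
private def fn (n : Pt) : Module.Dual ℚ (homogeneousSubmodule (Fin 3) ℚ 8) :=
  (aeval (fun i => (n i : ℚ)) : Q3 →ₐ[ℚ] ℚ).toLinearMap ∘ₗ (homogeneousSubmodule (Fin 3) ℚ 8).subtype

private theorem fn_apply (n : Pt) (F : homogeneousSubmodule (Fin 3) ℚ 8) : fn n F = ev n F.1 := by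
  unfold fn ev
  simp [aeval_eq_eval]

end ChAux

open ChAux in
theorem tCh : S_Ch := by
  classical
  intro E hE
  have : Module.Finite ℚ (homogeneousSubmodule (Fin 3) ℚ 8) :=
    Module.Finite.iff_fg.2 (homogeneousSubmodule_fg (Fin 3) ℚ 8)
  set W : Submodule ℚ (Module.Dual ℚ (homogeneousSubmodule (Fin 3) ℚ 8)) :=
    Submodule.span ℚ (fn '' (E : Set Pt)) with hW
  obtain ⟨b, hb, hspan, hli⟩ := exists_linearIndependent ℚ (fn '' (E : Set Pt))
  have hbf : b.Finite := (E.finite_toSet.image fn).subset hb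
  have : Fintype b := hbf.fintype
  have hco : W.dualCoannihilator = ⊥ := by
    rw [Submodule.eq_bot_iff]
    intro F hF
    rw [Submodule.mem_dualCoannihilator] at hF
    apply Subtype.ext
    refine hE F.1 F.2 fun n hn => ?_
    rw [← fn_apply]
    exact hF _ (Submodule.subset_span ⟨n, hn, rfl⟩)
  have hfr : Module.finrank ℚ W = 45 := by
    have h1 := Subspace.finrank_add_finrank_dualCoannihilator_eq W
    rw [hco, finrank_bot, add_zero] at h1
    rw [h1, show (3 : ℕ) = 2 + 1 from rfl, finrank_forms 2 8]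
    rfl
  have hcard : b.toFinset.card = 45 := by
    rw [← finrank_span_set_eq_card hli, hspan, ← hW, hfr]
  have hsurj : Set.SurjOn fn (E : Set Pt) (b.toFinset : Set _) := by
    intro φ hφ
    rw [Set.coe_toFinset] at hφ
    exact hb hφ
  obtain ⟨E', hE', hinj, him⟩ := Finset.exists_subset_injOn_image_eq_of_surjOn (E : Set Pt) b.toFinset hsurj
  refine ⟨E', Finset.coe_subset.1 hE', ?_, ?_⟩
  · rw [← hcard, ← him, Finset.card_image_of_injOn hinj]
  · intro F hF h0
    refine hE F hF fun n hn => ?_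
    have h1 : fn n ∈ Submodule.span ℚ b := by
      rw [hspan]
      exact Submodule.subset_span ⟨n, hn, rfl⟩
    have h2 : Submodule.span ℚ b ≤ LinearMap.ker
        (LinearMap.applyₗ (⟨F, hF⟩ : homogeneousSubmodule (Fin 3) ℚ 8) :
          Module.Dual ℚ (homogeneousSubmodule (Fin 3) ℚ 8) →ₗ[ℚ] ℚ) := by
      rw [Submodule.span_le]
      intro φ hφ
      have h3 : φ ∈ E'.image fn := by
        rw [him]
        exact Set.mem_toFinset.2 hφ
      obtain ⟨m, hm, rfl⟩ := Finset.mem_image.1 h3
      rw [SetLike.mem_coe, LinearMap.mem_ker]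
      change fn m ⟨F, hF⟩ = 0
      rw [fn_apply]
      exact h0 m hm
    have h4 := LinearMap.mem_ker.1 (h2 h1)
    change fn n ⟨F, hF⟩ = 0 at h4
    rwa [fn_apply] at h4

end Pool.Agent.Lib.HS.D
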