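import Pool.Agent.Lib.HS.D.Spec

/-!
# PROJECT HS, part (D), module Cls: determinants on one class
-/

set_option autoImplicit false

open MvPolynomial

noncomputable section

namespace Pool.Agent.Lib.HS.D

namespace ClsAux

/-- the value of a form at a multiple of a point -/
theorem hom_aeval {S : Type} [CommRing S] (F : Z3) (d : ℕ) (hF : F.IsHomogeneous d) (t : S)
    (x : Fin 3 → S) : aeval (fun k => t * x k) F = t ^ d * aeval x F := by
  rw [aeval_def, aeval_def, eval₂_eq', eval₂_eq', Finset.mul_sum]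
  refine Finset.sum_congr rfl fun s hs => ?_
  have h1 : ∑ i, s i = d := by
    have h2 := hF.degree_eq_sum_deg_support hs
    rw [h2]
    exact (Finset.sum_subset (Finset.subset_univ _)
      fun i _ hi => Finsupp.notMem_support_iff.1 hi).symm
  have h3 : ∏ i, (t * x i) ^ s i = t ^ d * ∏ i, x i ^ s i := by
    simp only [mul_pow]
    rw [Finset.prod_mul_distrib, Finset.prod_pow_eq_pow_sum, h1]
  rw [h3]
  ring

/-- the point with the coordinate number `c` equal to `1` -/
def pt {S : Type} [CommRing S] (c j : Fin 3) (u w : S) : Fin 3 → S :=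
  fun k => if k = c then 1 else if k = j then w else u

theorem pt_map {S T : Type} [CommRing S] [CommRing T] (φ : S →+* T) (c j : Fin 3) (u w : S) :
    (fun k => φ (pt c j u w k)) = pt c j (φ u) (φ w) := by
  funext k
  unfold pt
  split_ifs <;> simp

/-- the affine equation -/
def aff (c j : Fin 3) (F : Z3) : MvPolynomial (Fin 2) ℤ :=
  aeval (pt c j (X 0) (X 1)) F

theorem aff_aeval {S : Type} [CommRing S] (c j : Fin 3) (F : Z3) (u w : S) :
    aeval ![u, w] (aff c j F) = aeval (pt c j u w) F := by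
  unfold aff
  rw [← AlgHom.comp_apply, comp_aeval]
  congr 2
  have h := pt_map (aeval (R := ℤ) ![u, w]).toRingHom c j (X 0) (X 1)
  have h0 : (aeval (R := ℤ) ![u, w]).toRingHom (X 0) = u := by
    change aeval (R := ℤ) ![u, w] (X 0) = u
    rw [aeval_X]
    rfl
  have h1 : (aeval (R := ℤ) ![u, w]).toRingHom (X 1) = w := by
    change aeval (R := ℤ) ![u, w] (X 1) = w
    rw [aeval_X]
    rfl
  rw [h0, h1] at h
  exact h

theorem aff_pderiv (c j : Fin 3) (hj : j ≠ c) (F : Z3) :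
    pderiv 1 (aff c j F) = aff c j (pderiv j F) := by
  unfold aff
  induction F using MvPolynomial.induction_on with
  | C a => simp
  | add p q hp hq => simp only [map_add, hp, hq]
  | mul_X p k hp =>
    have hk : pderiv 1 (pt c j (X 0 : MvPolynomial (Fin 2) ℤ) (X 1) k) =
        aeval (pt c j (X 0 : MvPolynomial (Fin 2) ℤ) (X 1)) (pderiv j (X k : Z3)) := by
      unfold pt
      by_cases h1 : k = c
      · have h2 : k ≠ j := fun h => hj (h ▸ h1)
        rw [if_pos h1, pderiv_X_of_ne h2]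
        simp
      · by_cases h2 : k = j
        · rw [if_neg h1, if_pos h2, h2, pderiv_X_self, pderiv_X_self]
          simp
        · rw [if_neg h1, if_neg h2, pderiv_X_of_ne h2, pderiv_X_of_ne (by decide)]
          simp
    rw [map_mul, aeval_X, Derivation.leibniz, hp, hk, Derivation.leibniz]
    simp only [smul_eq_mul, map_add, map_mul, aeval_X]

theorem eval_cast {σ S : Type} [CommRing S] (F : MvPolynomial σ ℤ) (x : σ → ℤ) :
    ((eval x F : ℤ) : S) = aeval (fun k => (x k : S)) F := by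
  have h1 : aeval (R := ℤ) x F = eval x F := by
    rw [aeval_def, Algebra.algebraMap_self]
    rfl
  have h := map_aeval (R := ℤ) x (Int.castRingHom S) F
  rw [h1] at h
  have h2 : (Int.castRingHom S) (eval x F) = ((eval x F : ℤ) : S) := rfl
  rw [← h2, h, aeval_def, coe_eval₂Hom]
  congr 1

theorem pt_eq {S : Type} [CommRing S] {c j o : Fin 3} (hk : ∀ k, k = c ∨ k = j ∨ k = o) (ν : S)
    (x : Fin 3 → S) (hν : ν * x c = 1) : pt c j (ν * x o) (ν * x j) = fun k => ν * x k := by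
  funext k
  unfold pt
  by_cases h1 : k = c
  · rw [if_pos h1, h1, hν]
  · by_cases h2 : k = j
    · rw [if_neg h1, if_pos h2, h2]
    · rw [if_neg h1, if_neg h2]
      rcases hk k with h3 | h3 | h3
      · exact absurd h3 h1
      · exact absurd h3 h2
      · rw [h3]

theorem key {S : Type} [CommRing S] {c j o : Fin 3} (hk : ∀ k, k = c ∨ k = j ∨ k = o) (ν : S)
    (x : Fin 3 → ℤ) (hν : ν * (x c : S) = 1) (G : Z3) (e : ℕ) (hG : G.IsHomogeneous e) :
    aeval (pt c j (ν * (x o : S)) (ν * (x j : S))) G = ν ^ e * ((eval x G : ℤ) : S) := by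
  have h1 : pt c j (ν * (x o : S)) (ν * (x j : S)) = fun k => ν * (x k : S) :=
    pt_eq hk ν (fun k => (x k : S)) hν
  rw [h1, hom_aeval G e hG, eval_cast]

theorem keyS {S : Type} [CommRing S] {c j o : Fin 3} (hk : ∀ k, k = c ∨ k = j ∨ k = o) (a : ℤ)
    (x : Fin 3 → ℤ) (hν : (a : S) * (x c : S) = 1) (G : Z3) (e : ℕ) (hG : G.IsHomogeneous e) :
    ((eval ![a * x o, a * x j] (aff c j G) : ℤ) : S) = (a : S) ^ e * ((eval x G : ℤ) : S) := by
  rw [eval_cast, ← key hk (a : S) x hν G e hG, ← aff_aeval]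
  congr 2
  funext k
  fin_cases k <;> simp

end ClsAux

open ClsAux in
theorem tCls : S_Alt → S_Newton → S_Cls := by
  intro hAlt hNew p hpf r d e F n M hF hM hn0 hsm hnz hpar
  have hp : Prime (p : ℤ) := Nat.prime_iff_prime_int.1 hpf.out
  rcases Nat.lt_or_ge r 2 with hr | hr
  · have h0 : r * (r - 1) / 2 = 0 := by
      interval_cases r <;> rfl
    rw [h0, pow_zero]
    exact one_dvd _
  -- the exponent
  set L : ℕ := r * (r - 1) / 2 with hL
  have hL1 : 1 ≤ L := by
    rw [hL, Nat.le_div_iff_mul_le (by norm_num)]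
    have h1 : 1 ≤ r - 1 := by omega
    calc 1 * 2 = 2 * 1 := by norm_num
      _ ≤ r * (r - 1) := Nat.mul_le_mul hr h1
  let i0 : Fin r := ⟨0, by omega⟩
  obtain ⟨c, hc⟩ := hnz i0
  -- all coordinates number `c` are prime to `p`
  have hc' : ∀ i, ¬ (p : ℤ) ∣ n i c := by
    intro i hi
    obtain ⟨j, hj⟩ := hnz i
    have h1 := hpar i i0 c j
    have h2 : (p : ℤ) ∣ n i j * n i0 c := by
      have h3 : (p : ℤ) ∣ n i c * n i0 j := Dvd.dvd.mul_right hi _
      have h4 := dvd_sub h3 h1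
      rwa [sub_sub_cancel] at h4
    rcases hp.dvd_or_dvd h2 with h3 | h3
    · exact hj h3
    · exact hc h3
  -- a partial derivative which is not zero modulo `p`
  obtain ⟨j, hjc, hj⟩ : ∃ j, j ≠ c ∧ ¬ (p : ℤ) ∣ eval (n i0) (pderiv j F) := by
    by_contra hcon
    push Not at hcon
    have h1 := congrArg (eval (n i0)) hF.sum_X_mul_pderiv
    rw [map_sum, map_nsmul, hn0, smul_zero] at h1
    simp only [map_mul, eval_X] at h1
    rw [← Finset.add_sum_erase _ _ (Finset.mem_univ c)] at h1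
    have h2 : (p : ℤ) ∣ ∑ x ∈ Finset.univ.erase c, n i0 x * eval (n i0) (pderiv x F) :=
      Finset.dvd_sum fun x hx => Dvd.dvd.mul_left (hcon x (Finset.ne_of_mem_erase hx)) _
    have h3 : (p : ℤ) ∣ n i0 c * eval (n i0) (pderiv c F) := by
      have h4 : n i0 c * eval (n i0) (pderiv c F) =
          -∑ x ∈ Finset.univ.erase c, n i0 x * eval (n i0) (pderiv x F) := by linarith
      rw [h4]
      exact (dvd_neg).2 h2
    have h5 : (p : ℤ) ∣ eval (n i0) (pderiv c F) := (hp.dvd_or_dvd h3).resolve_left hc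
    obtain ⟨k, hk⟩ := hsm i0
    by_cases hkc : k = c
    · exact hk (hkc ▸ h5)
    · exact hk (hcon k hkc)
  -- inverses of the coordinates number `c`
  have hcop : ∀ i, ∃ a : ℤ, (p : ℤ) ^ L ∣ a * n i c - 1 := by
    intro i
    obtain ⟨u, v, huv⟩ := ((hp.coprime_iff_not_dvd).2 (hc' i)).pow_left (m := L)
    exact ⟨v, -u, by linear_combination huv⟩
  choose a ha using hcop
  have third : ∀ c j : Fin 3, j ≠ c → ∃ o : Fin 3, ∀ k, k = c ∨ k = j ∨ k = o := by
    decide
  obtain ⟨o, ho⟩ := third c j hjc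
  have hane : ∀ i, ((a i : ℤ) : ZMod (p ^ L)) * ((n i c : ℤ) : ZMod (p ^ L)) = 1 := by
    intro i
    have h1 : ((a i * n i c - 1 : ℤ) : ZMod (p ^ L)) = 0 := by
      rw [ZMod.intCast_zmod_eq_zero_iff_dvd]
      push_cast
      exact ha i
    push_cast at h1
    linear_combination h1
  have hap : ((a i0 : ℤ) : ZMod p) * ((n i0 c : ℤ) : ZMod p) = 1 := by
    have h1 : ((a i0 * n i0 c - 1 : ℤ) : ZMod p) = 0 := by
      rw [ZMod.intCast_zmod_eq_zero_iff_dvd]
      exact (dvd_pow_self _ (by omega)).trans (ha i0)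
    push_cast at h1
    linear_combination h1
  -- Newton
  obtain ⟨g, hg⟩ := hNew p L hL1 (aff c j F) (a i0 * n i0 o) (a i0 * n i0 j) (by
    rw [← ZMod.intCast_zmod_eq_zero_iff_dvd, keyS ho (a i0) (n i0) hap F d hF, hn0]
    simp) (by
    rw [← ZMod.intCast_zmod_eq_zero_iff_dvd, aff_pderiv c j hjc,
      keyS ho (a i0) (n i0) hap _ (d - 1) hF.pderiv]
    refine mul_ne_zero (pow_ne_zero _ (left_ne_zero_of_mul_eq_one hap)) ?_
    rw [Ne, ZMod.intCast_zmod_eq_zero_iff_dvd]
    exact hj)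
  -- the points
  have hyz : ∀ i k, ∃ y : ZMod (p ^ L), ((a i : ℤ) : ZMod (p ^ L)) * ((n i k : ℤ) : ZMod (p ^ L)) =
      ((a i0 * n i0 k : ℤ) : ZMod (p ^ L)) + (p : ZMod (p ^ L)) * y := by
    intro i k
    obtain ⟨q, hq⟩ := hpar i i0 k c
    refine ⟨((a i : ℤ) : ZMod (p ^ L)) * ((a i0 : ℤ) : ZMod (p ^ L)) * ((q : ℤ) : ZMod (p ^ L)), ?_⟩
    have hq' : ((n i k : ℤ) : ZMod (p ^ L)) * ((n i0 c : ℤ) : ZMod (p ^ L)) -
        ((n i c : ℤ) : ZMod (p ^ L)) * ((n i0 k : ℤ) : ZMod (p ^ L)) =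
        (p : ZMod (p ^ L)) * ((q : ℤ) : ZMod (p ^ L)) := by
      have h1 := congrArg (Int.cast : ℤ → ZMod (p ^ L)) hq
      push_cast at h1
      exact h1
    have h1 := hane i
    have h2 := hane i0
    push_cast
    linear_combination ((a i : ℤ) : ZMod (p ^ L)) * ((a i0 : ℤ) : ZMod (p ^ L)) * hq' -
      ((a i : ℤ) : ZMod (p ^ L)) * ((n i k : ℤ) : ZMod (p ^ L)) * h2 +
      ((a i0 : ℤ) : ZMod (p ^ L)) * ((n i0 k : ℤ) : ZMod (p ^ L)) * h1
  have hyo := fun i => hyz i o
  choose y hy using hyo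
  have hw : ∀ i, ((a i : ℤ) : ZMod (p ^ L)) * ((n i j : ℤ) : ZMod (p ^ L)) =
      g.eval ((p : ZMod (p ^ L)) * y i) := by
    intro i
    obtain ⟨z, hz⟩ := hyz i j
    have h1 := hg _ _ (y i) z (hy i) hz (by
      rw [aff_aeval, key ho _ (n i) (hane i) F d hF, hn0]
      simp)
    rw [h1, hy i, add_sub_cancel_left]
  -- the polynomials
  let f : Fin r → Polynomial (ZMod (p ^ L)) := fun b =>
    aeval (pt c j (Polynomial.C ((a i0 * n i0 o : ℤ) : ZMod (p ^ L)) + Polynomial.X) g) (M b)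
  have hf : ∀ i b, ((eval (n i) (M b) : ℤ) : ZMod (p ^ L)) =
      ((n i c : ℤ) : ZMod (p ^ L)) ^ e * (f b).eval ((p : ZMod (p ^ L)) * y i) := by
    intro i b
    have h1 : (f b).eval ((p : ZMod (p ^ L)) * y i) =
        aeval (pt c j (((a i : ℤ) : ZMod (p ^ L)) * ((n i o : ℤ) : ZMod (p ^ L)))
          (((a i : ℤ) : ZMod (p ^ L)) * ((n i j : ℤ) : ZMod (p ^ L)))) (M b) := by
      have h2 := map_aeval (R := ℤ)
        (pt c j (Polynomial.C ((a i0 * n i0 o : ℤ) : ZMod (p ^ L)) + Polynomial.X) g)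
        (Polynomial.evalRingHom ((p : ZMod (p ^ L)) * y i)) (M b)
      rw [pt_map] at h2
      have h3 : (Polynomial.evalRingHom ((p : ZMod (p ^ L)) * y i))
          (Polynomial.C ((a i0 * n i0 o : ℤ) : ZMod (p ^ L)) + Polynomial.X) =
          ((a i : ℤ) : ZMod (p ^ L)) * ((n i o : ℤ) : ZMod (p ^ L)) := by
        rw [hy i]
        simp
      have h4 : (Polynomial.evalRingHom ((p : ZMod (p ^ L)) * y i)) g =
          ((a i : ℤ) : ZMod (p ^ L)) * ((n i j : ℤ) : ZMod (p ^ L)) := by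
        rw [hw i]
        rfl
      rw [h3, h4] at h2
      change (Polynomial.evalRingHom ((p : ZMod (p ^ L)) * y i)) (f b) = _
      rw [h2, aeval_def, coe_eval₂Hom]
      congr 1
      exact Subsingleton.elim _ _
    rw [h1, key ho _ (n i) (hane i) (M b) e (hM b), ← mul_assoc, ← mul_pow, mul_comm (_ : ZMod _)
      ((a i : ℤ) : ZMod (p ^ L)), hane i, one_pow, one_mul]
  -- the determinant
  have hdet : ((Matrix.of fun i b => eval (n i) (M b)).det : ZMod (p ^ L)) = 0 := by
    have h1 : (((Matrix.of fun i b => eval (n i) (M b)).det : ℤ) : ZMod (p ^ L)) =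
        (Matrix.of fun i b => ((n i c : ℤ) : ZMod (p ^ L)) ^ e *
          (Matrix.of (fun i b => (f b).eval ((p : ZMod (p ^ L)) * y i)) i b)).det := by
      have h2 := RingHom.map_det (Int.castRingHom (ZMod (p ^ L)))
        (Matrix.of fun i b => eval (n i) (M b))
      change (Int.castRingHom (ZMod (p ^ L))) _ = _
      rw [h2]
      congr 1
      ext i b
      exact hf i b
    rw [h1, Matrix.det_mul_column, hAlt (ZMod (p ^ L)) (p : ZMod (p ^ L)) r y f (by
      have h3 : ((p ^ L : ℕ) : ZMod (p ^ L)) = 0 := ZMod.natCast_self _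
      push_cast at h3
      exact h3), mul_zero]
  have h4 := (ZMod.intCast_zmod_eq_zero_iff_dvd _ (p ^ L)).1 hdet
  push_cast at h4
  exact h4

end Pool.Agent.Lib.HS.D
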