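import Pool.Agent.Lib.HS.D.Spec

/-!
# PROJECT HS, part (D), module Cov: the number of residue classes (helper69)
-/

set_option autoImplicit false

open MvPolynomial

noncomputable section

namespace Pool.Agent.Lib.HS.D

namespace CovAux

theorem deg_sum {R : Type} [CommRing R] {d : ℕ} {F : MvPolynomial (Fin 3) R}
    (hF : F.IsHomogeneous d) {α : Fin 3 →₀ ℕ} (hα : α ∈ F.support) : ∑ i, α i = d := by
  have h1 := hF (mem_support_iff.1 hα)
  rw [← h1, Finsupp.weight_apply, Finsupp.sum_fintype _ _ (by simp)]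
  simp

/-- scaling -/
theorem scale {R S : Type} [CommRing R] [CommRing S] (φ : R →+* S) {d : ℕ}
    {F : MvPolynomial (Fin 3) R} (hF : F.IsHomogeneous d) (x : Fin 3 → S) (t : S) :
    eval₂ φ (fun i => t * x i) F = t ^ d * eval₂ φ x F := by
  rw [eval₂_eq', eval₂_eq', Finset.mul_sum]
  refine Finset.sum_congr rfl fun α hα => ?_
  have h1 := deg_sum hF hα
  have h2 : ∏ i, (t * x i) ^ α i = t ^ d * ∏ i, x i ^ α i := by
    simp only [mul_pow, Finset.prod_mul_distrib]
    rw [Finset.prod_pow_eq_pow_sum, h1]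
  rw [h2]
  ring

/-- the dehomogenisation -/
def fc {K : Type} [CommRing K] (c : Fin 3) (F : MvPolynomial (Fin 3) K) :
    MvPolynomial (Fin 2) K :=
  bind₁ (c.insertNth (1 : MvPolynomial (Fin 2) K) fun k => X k) F

theorem ev_fc {K L : Type} [CommRing K] [CommRing L] (φ : K →+* L) (c : Fin 3)
    (F : MvPolynomial (Fin 3) K) (v : Fin 2 → L) :
    eval₂ φ v (fc c F) = eval₂ φ (c.insertNth (1 : L) v) F := by
  have h1 := eval₂Hom_bind₁ φ v (c.insertNth (1 : MvPolynomial (Fin 2) K) fun k => X k) F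
  have h2 : (fun i => eval₂Hom φ v ((c.insertNth (1 : MvPolynomial (Fin 2) K)
      fun k => X k : Fin 3 → MvPolynomial (Fin 2) K) i)) =
      (c.insertNth (1 : L) v : Fin 3 → L) := by
    funext i
    refine Fin.succAboveCases c ?_ (fun j => ?_) i
    · rw [Fin.insertNth_apply_same, Fin.insertNth_apply_same, map_one]
    · rw [Fin.insertNth_apply_succAbove, Fin.insertNth_apply_succAbove, coe_eval₂Hom, eval₂_X]
  rw [h2] at h1
  exact h1

theorem fc_ne {K : Type} [Field K] (c : Fin 3) {d : ℕ} {F : MvPolynomial (Fin 3) K}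
    (hF : F.IsHomogeneous d) (h0 : F ≠ 0) : fc c F ≠ 0 := by
  intro hf
  have hF' : F * X c ≠ 0 := mul_ne_zero h0 (X_ne_zero c)
  have h1 : map (algebraMap K (AlgebraicClosure K)) (F * X c) ≠ 0 := by
    intro h2
    refine hF' (map_injective _ (algebraMap K (AlgebraicClosure K)).injective ?_)
    rw [h2, map_zero]
  apply h1
  refine MvPolynomial.funext fun x => ?_
  rw [map_zero, eval_map, eval₂_mul, eval₂_X]
  by_cases hc : x c = 0
  · rw [hc, mul_zero]
  · have h2 := scale (algebraMap K (AlgebraicClosure K)) hF (fun i => x i / x c) (x c)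
    have h3 : (fun i => x c * (x i / x c)) = x := by
      funext i
      field_simp
    rw [h3] at h2
    have h4 : (fun i => x i / x c) = (c.insertNth (1 : AlgebraicClosure K)
        (fun k => x (c.succAbove k) / x c) : Fin 3 → AlgebraicClosure K) := by
      funext i
      refine Fin.succAboveCases c ?_ (fun j => ?_) i
      · rw [Fin.insertNth_apply_same, div_self hc]
      · rw [Fin.insertNth_apply_succAbove]
    rw [h4, ← ev_fc, hf, eval₂_zero, mul_zero] at h2
    rw [h2, zero_mul]

theorem fc_deg {K : Type} [Field K] (c : Fin 3) {d : ℕ} {F : MvPolynomial (Fin 3) K}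
    (hF : F.IsHomogeneous d) : (fc c F).totalDegree ≤ d := by
  have h1 : fc c F = ∑ α ∈ F.support, C (F.coeff α) *
      ∏ i, (c.insertNth (1 : MvPolynomial (Fin 2) K) fun k => X k :
        Fin 3 → MvPolynomial (Fin 2) K) i ^ α i := by
    rw [fc, bind₁, aeval_def, eval₂_eq']
    rfl
  rw [h1]
  refine totalDegree_finsetSum_le fun α hα => ?_
  refine (totalDegree_mul _ _).trans ?_
  rw [totalDegree_C, zero_add]
  refine (totalDegree_finsetProd _ _).trans ?_
  rw [← deg_sum hF hα]
  refine Finset.sum_le_sum fun i _ => ?_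
  refine (totalDegree_pow _ _).trans ?_
  have h2 : ((c.insertNth (1 : MvPolynomial (Fin 2) K) fun k => X k :
      Fin 3 → MvPolynomial (Fin 2) K) i).totalDegree ≤ 1 := by
    refine Fin.succAboveCases c ?_ (fun j => ?_) i
    · rw [Fin.insertNth_apply_same, totalDegree_one]
      exact Nat.zero_le _
    · rw [Fin.insertNth_apply_succAbove, totalDegree_X]
  calc α i * _ ≤ α i * 1 := Nat.mul_le_mul_left _ h2
    _ = α i := mul_one _

/-- the zeros with coordinate one -/
theorem card_zeros (p : ℕ) [Fact p.Prime] (c : Fin 3) {d : ℕ}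
    {F : MvPolynomial (Fin 3) (ZMod p)} (hF : F.IsHomogeneous d) (h0 : F ≠ 0) :
    (Finset.univ.filter fun v : Fin 3 → ZMod p => v c = 1 ∧ eval v F = 0).card ≤ d * p := by
  classical
  have h1 := schwartz_zippel_totalDegree (fc_ne c hF h0) (Finset.univ : Finset (ZMod p))
  have hp : 0 < p := (Fact.out : p.Prime).pos
  rw [Finset.card_univ, ZMod.card] at h1
  have hpi : Fintype.piFinset (fun _ : Fin 2 => (Finset.univ : Finset (ZMod p))) =
      Finset.univ := by
    ext
    simp
  rw [hpi] at h1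
  have hp' : (0 : ℚ≥0) < p := by exact_mod_cast hp
  have h2 : (((Finset.univ.filter fun f : Fin 2 → ZMod p => eval f (fc c F) = 0).card : ℕ) :
      ℚ≥0) ≤ d * p := by
    rw [div_le_iff₀ (by positivity)] at h1
    refine h1.trans ?_
    have h3 : ((fc c F).totalDegree : ℚ≥0) ≤ d := by exact_mod_cast fc_deg c hF
    calc ((fc c F).totalDegree : ℚ≥0) / p * p ^ 2 = (fc c F).totalDegree * p := by
          field_simp
      _ ≤ d * p := mul_le_mul_of_nonneg_right h3 hp'.le
  have h3 : (Finset.univ.filter fun f : Fin 2 → ZMod p => eval f (fc c F) = 0).card ≤ d * p := by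
    exact_mod_cast h2
  refine le_trans ?_ h3
  refine Finset.card_le_card_of_injOn (fun v k => v (c.succAbove k)) ?_ ?_
  · intro v hv
    rw [Finset.mem_coe, Finset.mem_filter] at hv ⊢
    refine ⟨Finset.mem_univ _, ?_⟩
    have h4 := ev_fc (RingHom.id (ZMod p)) c F (fun k => v (c.succAbove k))
    have h5 : (c.insertNth (1 : ZMod p) (fun k => v (c.succAbove k)) : Fin 3 → ZMod p) = v := by
      funext i
      refine Fin.succAboveCases c ?_ (fun j => ?_) i
      · rw [Fin.insertNth_apply_same, hv.2.1]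
      · rw [Fin.insertNth_apply_succAbove]
    rw [h5] at h4
    exact h4.trans hv.2.2
  · intro v hv v' hv' h4
    rw [Finset.mem_coe, Finset.mem_filter] at hv hv'
    funext i
    refine Fin.succAboveCases c ?_ (fun j => ?_) i
    · rw [hv.2.1, hv'.2.1]
    · exact congrFun h4 j

end CovAux

open CovAux in
theorem tCov : S_Cov := by
  classical
  intro p hp d F hF ⟨α, hα⟩ E hE
  set Fp : MvPolynomial (Fin 3) (ZMod p) := map (Int.castRingHom (ZMod p)) F with hFp
  have hFp1 : Fp.IsHomogeneous d := hF.map _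
  have hFp0 : Fp ≠ 0 := by
    intro h0
    apply hα
    have h1 : coeff α Fp = 0 := by rw [h0, coeff_zero]
    rw [hFp, coeff_map] at h1
    exact (ZMod.intCast_zmod_eq_zero_iff_dvd _ _).1 h1
  set T : Finset (Fin 3 → ZMod p) := Finset.univ.biUnion fun c : Fin 3 =>
    Finset.univ.filter fun v : Fin 3 → ZMod p => v c = 1 ∧ eval v Fp = 0 with hT
  have hTc : T.card ≤ 3 * d * p := by
    refine Finset.card_biUnion_le.trans ?_
    refine (Finset.sum_le_sum fun c _ => card_zeros p c hFp1 hFp0).trans ?_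
    rw [Finset.sum_const, Finset.card_univ, Fintype.card_fin, smul_eq_mul, mul_assoc]
  -- the normalised vector
  have hv : ∀ n : Pt, ∃ v : Fin 3 → ZMod p, n ∈ E → v ∈ T ∧ ∃ t : ZMod p, ∀ i,
      (n i : ZMod p) = t * v i := by
    intro n
    by_cases hn : n ∈ E
    · obtain ⟨h1, c, hc⟩ := hE n hn
      have hc0 : (n c : ZMod p) ≠ 0 := fun h =>
        hc ((ZMod.intCast_zmod_eq_zero_iff_dvd _ _).1 h)
      refine ⟨fun i => (n i : ZMod p) / n c, fun _ => ⟨?_, n c, fun i => ?_⟩⟩
      · rw [hT, Finset.mem_biUnion]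
        refine ⟨c, Finset.mem_univ _, Finset.mem_filter.2 ⟨Finset.mem_univ _, div_self hc0, ?_⟩⟩
        have h2 := scale (Int.castRingHom (ZMod p)) hF (fun i => (n i : ZMod p) / n c) (n c)
        have h3 : (fun i => (n c : ZMod p) * ((n i : ZMod p) / n c)) =
            fun i => (Int.castRingHom (ZMod p)) (n i) := by
          funext i
          rw [mul_div_cancel₀ _ hc0]
          rfl
        have h4 : eval₂ (Int.castRingHom (ZMod p)) (fun i => (Int.castRingHom (ZMod p)) (n i)) F =
            (Int.castRingHom (ZMod p)) (eval n F) := by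
          rw [eval₂_comp]
          rfl
        have h5 : (Int.castRingHom (ZMod p)) (eval n F) = 0 :=
          (ZMod.intCast_zmod_eq_zero_iff_dvd _ _).2 h1
        rw [h3, h4, h5] at h2
        rw [hFp, eval_map]
        exact (mul_eq_zero.1 h2.symm).resolve_left (pow_ne_zero _ hc0)
      · rw [mul_div_cancel₀ _ hc0]
    · exact ⟨0, fun h => absurd h hn⟩
  choose v hv using hv
  refine ⟨fun n => if h : v n ∈ T then (T.equivFin ⟨v n, h⟩ : ℕ) else 0, fun n hn => ?_,
    fun n hn n' hn' hnn => ?_⟩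
  · have h1 := (hv n hn).1
    simp only [h1, dif_pos]
    exact lt_of_lt_of_le (T.equivFin ⟨v n, h1⟩).2 hTc
  · obtain ⟨h1, t, ht⟩ := hv n hn
    obtain ⟨h1', t', ht'⟩ := hv n' hn'
    simp only [h1, h1', dif_pos] at hnn
    have h2 := T.equivFin.injective (Fin.ext hnn)
    have h3 : v n = v n' := congrArg Subtype.val h2
    intro i j
    refine (ZMod.intCast_zmod_eq_zero_iff_dvd _ _).1 ?_
    push_cast
    rw [ht i, ht j, ht' i, ht' j, h3]
    ring

end Pool.Agent.Lib.HS.D
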