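import Pool.Agent.Lib.HS.D.Spec

/-!
# PROJECT HS, part (D): irreducible curves of degree at least three
-/

set_option autoImplicit false

open MvPolynomial

noncomputable section

namespace Pool.Agent.Lib.HS.D

namespace CurveAux

theorem indep_mono {E E' : Finset Pt} (h : Indep E) (hs : E' ⊆ E) : Indep E' :=
  ⟨fun n hn => h.1 n (hs hn), fun n hn n' hn' => h.2 n (hs hn) n' (hs hn')⟩

theorem ev_map (n : Pt) (G : Z3) : ev n (G.map (Int.castRingHom ℚ)) = ((eval n G : ℤ) : ℚ) := by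
  unfold ev
  rw [eval_map]
  have h := map_eval₂Hom (RingHom.id ℤ) n (Int.castRingHom ℚ) G
  simp only [RingHom.comp_id] at h
  exact h.symm

/-- The value of a form at a vector divisible by `p`. -/
theorem dvd_eval {p : ℕ} {e : ℕ} (he : 1 ≤ e) {G : Z3} (hG : G.IsHomogeneous e) {n : Pt}
    (hn : ∀ i, (p : ℤ) ∣ n i) : (p : ℤ) ∣ eval n G := by
  rw [eval_eq']
  refine Finset.dvd_sum fun α hα => ?_
  refine Dvd.dvd.mul_left ?_ _
  have h1 : α.degree = e := by
    by_contra hne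
    exact (mem_support_iff.mp hα) (hG.coeff_eq_zero hne)
  obtain ⟨i, hi⟩ : ∃ i, α i ≠ 0 := by
    by_contra hcon
    push Not at hcon
    have : α = 0 := Finsupp.ext hcon
    rw [this, map_zero] at h1
    omega
  refine Dvd.dvd.trans ?_ (Finset.dvd_prod_of_mem _ (Finset.mem_univ i))
  exact dvd_pow (hn i) hi

theorem card_support {d : ℕ} (hd : d ≤ 8) {G : Z3} (hG : G.IsHomogeneous d) :
    G.support.card ≤ 729 := by
  have h1 : G.support.card ≤ (Fintype.piFinset fun _ : Fin 3 => Finset.range 9).card := by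
    refine Finset.card_le_card_of_injOn (fun α => (α : Fin 3 → ℕ)) ?_ ?_
    · intro α hα
      have h1 : α.degree = d := by
        by_contra hne
        exact (mem_support_iff.mp hα) (hG.coeff_eq_zero hne)
      rw [Finset.mem_coe, Fintype.mem_piFinset]
      intro i
      have h2 : α i ≤ α.degree := Finsupp.le_degree i α
      exact Finset.mem_range.2 (show α i < 9 by omega)
    · intro a _ b _ hab
      exact DFunLike.coe_injective hab
  refine h1.trans ?_
  rw [Fintype.card_piFinset]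
  simp

/-- Values of derivatives. -/
theorem grad_le {d N A : ℕ} (hd : d ≤ 8) (hN : 1 ≤ N) {G : Z3} (hG : G.IsHomogeneous d)
    (hA : ∀ α, |coeff α G| ≤ (A : ℤ)) {n : Pt} (hn : ∀ i, |n i| ≤ (N : ℤ)) (j : Fin 3) :
    |eval n (pderiv j G)| ≤ ((5832 * A * N ^ 8 : ℕ) : ℤ) := by
  have h1 : pderiv j G = ∑ α ∈ G.support, pderiv j (monomial α (coeff α G)) := by
    conv_lhs => rw [G.as_sum, map_sum]
  rw [h1, map_sum]
  refine (Finset.abs_sum_le_sum_abs _ _).trans ?_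
  have h2 : ∀ α ∈ G.support, |eval n (pderiv j (monomial α (coeff α G)))| ≤
      ((8 * A * N ^ 8 : ℕ) : ℤ) := by
    intro α hα
    have h3 : α.degree = d := by
      by_contra hne
      exact (mem_support_iff.mp hα) (hG.coeff_eq_zero hne)
    have h4 : α j ≤ 8 := (Finsupp.le_degree j α).trans (by omega)
    rw [pderiv_monomial, eval_monomial, abs_mul, abs_mul]
    have h5 : |(Finsupp.prod (α - Finsupp.single j 1) fun i e => n i ^ e)| ≤ ((N ^ 8 : ℕ) : ℤ) := by
      rw [Finsupp.prod, Finset.abs_prod]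
      have h6 : ∏ i ∈ (α - Finsupp.single j 1).support,
          |n i ^ (α - Finsupp.single j 1 : Fin 3 →₀ ℕ) i| ≤
          ∏ i ∈ (α - Finsupp.single j 1).support,
            (N : ℤ) ^ (α - Finsupp.single j 1 : Fin 3 →₀ ℕ) i := by
        refine Finset.prod_le_prod (fun i _ => abs_nonneg _) fun i _ => ?_
        rw [abs_pow]
        exact pow_le_pow_left₀ (abs_nonneg _) (hn i) _
      refine h6.trans ?_
      rw [Finset.prod_pow_eq_pow_sum]
      have h7 : ∑ i ∈ (α - Finsupp.single j 1).support, (α - Finsupp.single j 1 : Fin 3 →₀ ℕ) i ≤ 8 := by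
        have h8 : (α - Finsupp.single j 1 : Fin 3 →₀ ℕ).degree ≤ α.degree :=
          Finsupp.degree_mono tsub_le_self
        rw [Finsupp.degree_apply] at h8
        omega
      push_cast
      exact pow_le_pow_right₀ (by exact_mod_cast hN) h7
    push_cast at h5 ⊢
    have h9 : |(coeff α G)| * |((α j : ℕ) : ℤ)| ≤ (A : ℤ) * 8 := by
      refine mul_le_mul (hA α) ?_ (abs_nonneg _) (by positivity)
      rw [abs_of_nonneg (by positivity)]
      exact_mod_cast h4
    calc _ ≤ (A : ℤ) * 8 * (N : ℤ) ^ 8 := mul_le_mul h9 h5 (abs_nonneg _) (by positivity)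
      _ = _ := by ring
  refine (Finset.sum_le_card_nsmul _ _ _ h2).trans ?_
  rw [nsmul_eq_mul]
  have h10 := card_support hd hG
  push_cast
  have h11 : ((G.support.card : ℕ) : ℤ) ≤ 729 := by exact_mod_cast h10
  calc ((G.support.card : ℕ) : ℤ) * (8 * (A : ℤ) * (N : ℤ) ^ 8) ≤ 729 * (8 * (A : ℤ) * (N : ℤ) ^ 8) :=
        mul_le_mul_of_nonneg_right h11 (by positivity)
    _ = _ := by ring

/-- Determinants with bounded columns. -/
theorem det_le {r : ℕ} (A : Matrix (Fin r) (Fin r) ℤ) (c : Fin r → ℤ) (hc : ∀ i a, |A i a| ≤ c a) :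
    |A.det| ≤ (r.factorial : ℤ) * ∏ a, c a := by
  rw [Matrix.det_apply]
  refine (Finset.abs_sum_le_sum_abs _ _).trans ?_
  have h1 : ∀ σ ∈ (Finset.univ : Finset (Equiv.Perm (Fin r))),
      |Equiv.Perm.sign σ • ∏ i, A (σ i) i| ≤ ∏ a, c a := by
    intro σ _
    have h2 : |Equiv.Perm.sign σ • ∏ i, A (σ i) i| = |∏ i, A (σ i) i| := by
      rcases Int.units_eq_one_or (Equiv.Perm.sign σ) with h | h
      · rw [h, one_smul]
      · rw [h, Units.neg_smul, one_smul, abs_neg]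
    rw [h2, Finset.abs_prod]
    exact Finset.prod_le_prod (fun i _ => abs_nonneg _) fun i _ => hc _ _
  refine (Finset.sum_le_card_nsmul _ _ _ h1).trans ?_
  rw [Finset.card_univ, Fintype.card_perm, Fintype.card_fin, nsmul_eq_mul]

theorem mem_Mn {α β : Fin 3 →₀ ℕ} (h : β ∈ Mn α) : β.degree = 4 ∧ ¬ α ≤ β := by
  unfold Mn at h
  rw [Finset.mem_filter, Finset.mem_finsuppAntidiag] at h
  refine ⟨?_, h.2⟩
  rw [Finsupp.degree_eq_sum]
  exact h.1.1

/-- Values of monomials on the box. -/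
theorem mon_le {B : Fin 3 → ℕ} {n : Pt} (hn : ∀ i, |n i| ≤ (B i : ℤ)) (β : Fin 3 →₀ ℕ) :
    |eval n (monomial β (1 : ℤ))| ≤ ((wt B β : ℕ) : ℤ) := by
  rw [eval_monomial, one_mul, Finsupp.prod_fintype _ _ (fun i => pow_zero _), Finset.abs_prod]
  unfold wt
  push_cast
  refine Finset.prod_le_prod (fun i _ => abs_nonneg _) fun i _ => ?_
  rw [abs_pow]
  exact pow_le_pow_left₀ (abs_nonneg _) (hn i) _

/-- An irreducible form of degree at least two contains a monomial without the first variable. -/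
theorem exists_free {d : ℕ} (hd : 2 ≤ d) {F : Q3} (hF : F.IsHomogeneous d) (hI : Irreducible F) :
    ∃ β ∈ F.support, β 0 = 0 := by
  by_contra hcon
  push Not at hcon
  have h1 : (X 0 : Q3) ∣ F := by
    rw [X_dvd_iff_modMonomial_eq_zero]
    ext β
    by_cases h : Finsupp.single 0 1 ≤ β
    · rw [coeff_modMonomial_of_le _ h, coeff_zero]
    · rw [coeff_modMonomial_of_not_le _ h, coeff_zero]
      by_contra h2
      apply h
      have h3 := hcon β (mem_support_iff.2 h2)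
      rw [Finsupp.single_le_iff]
      omega
  obtain ⟨G, hG⟩ := h1
  have hX : ¬ IsUnit (X 0 : Q3) := by
    intro h
    have h2 := (isUnit_iff_totalDegree_of_isReduced.1 h).2
    rw [totalDegree_X] at h2
    omega
  rcases hI.isUnit_or_isUnit hG with h | h
  · exact hX h
  · have h3 : G.totalDegree = 0 := (isUnit_iff_totalDegree_of_isReduced.1 h).2
    have h4 : F.totalDegree ≤ 1 := by
      rw [hG]
      refine (totalDegree_mul _ _).trans ?_
      rw [totalDegree_X, h3]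
    rw [hF.totalDegree hI.ne_zero] at h4
    omega

/-- One class. -/
theorem class_card (hCls : S_Cls) (hLead : S_Lead) (hSiz : S_Siz) (hRk : S_Rk) (hBez : S_Bez)
    {d N P0 p : ℕ} (hp : p.Prime) {B : Fin 3 → ℕ} {F : Q3} {F1 : Z3} (hd3 : 3 ≤ d) (hd8 : d ≤ 8)
    (hB1 : ∀ i, 1 ≤ B i) (hB01 : B 0 ≤ B 1) (hB12 : B 1 ≤ B 2) (hBN : B 2 ≤ N)
    (hF : F.IsHomogeneous d) (hI : Irreducible F) (hF1 : F1.IsHomogeneous d)
    (hP0 : Nat.factorial 15 ^ 2 * (B 0 * B 1 * B 2) ^ 29 * N ^ 9 ≤ P0 ^ 132) (hPp : P0 < p)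
    {E : Finset Pt} (hE : Indep E) (hEB : ∀ n ∈ E, ∀ i, |n i| ≤ (B i : ℤ))
    (hEF : ∀ n ∈ E, ev n F = 0) (hEF1 : ∀ n ∈ E, eval n F1 = 0)
    (hgr : ∀ n ∈ E, ∃ j, ¬ (p : ℤ) ∣ eval n (pderiv j F1)) (hnz : ∀ n ∈ E, ∃ j, ¬ (p : ℤ) ∣ n j)
    (hpar : ∀ n ∈ E, ∀ n' ∈ E, ParP p n n') : E.card ≤ 32 := by
  classical
  have : Fact p.Prime := ⟨hp⟩
  obtain ⟨α, hαs, hαm, hαH⟩ := hLead B F hB1 hI.ne_zero
  have hαd : α.degree = d := by
    by_contra hne
    exact (mem_support_iff.mp hαs) (hF.coeff_eq_zero hne)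
  have hαd' : ∑ i, α i = d := by rw [← hαd, Finsupp.degree_eq_sum]
  have hw : B 1 ^ d ≤ wt B α := by
    obtain ⟨β, hβ, hβ0⟩ := exists_free (by omega) hF hI
    refine le_trans ?_ (hαm β hβ)
    have hβd : β.degree = d := by
      by_contra hne
      exact (mem_support_iff.mp hβ) (hF.coeff_eq_zero hne)
    rw [Finsupp.degree_eq_sum, Fin.sum_univ_three, hβ0, zero_add] at hβd
    unfold wt
    rw [Fin.prod_univ_three, hβ0, pow_zero, one_mul, ← hβd, pow_add]
    exact Nat.mul_le_mul_left _ (Nat.pow_le_pow_left hB12 _)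
  obtain ⟨-, -, hsz⟩ := hSiz d N P0 p B α hd3 hαd' hB1 hB01 hB12 hBN hw hP0 hPp
  set r := (Mn α).card with hr
  let e : Fin r ≃ {β // β ∈ Mn α} := (Finset.equivFin (Mn α)).symm
  let X : Type := {n // n ∈ E}
  let A : X → Fin r → ℚ := fun x a => ((eval x.1 (monomial (e a).1 (1 : ℤ)) : ℤ) : ℚ)
  have hprod : ∏ a, wt B (e a).1 = ∏ β ∈ Mn α, wt B β := by
    rw [← Finset.prod_coe_sort (Mn α) (fun β => wt B β)]
    exact Equiv.prod_comp e (fun β => wt B β.1)
  have hdet : ∀ x : Fin r → X, (Matrix.of fun i a => A (x i) a).det = 0 := by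
    intro x
    have h1 : (Matrix.of fun (i a : Fin r) => eval (x i).1 (monomial (e a).1 (1 : ℤ))).det = 0 := by
      refine Int.eq_zero_of_abs_lt_dvd (hCls p r d 4 F1 (fun i => (x i).1)
        (fun a => monomial (e a).1 1) hF1 (fun a => isHomogeneous_monomial _ (mem_Mn (e a).2).1)
        (fun i => hEF1 _ (x i).2) (fun i => hgr _ (x i).2) (fun i => hnz _ (x i).2)
        (fun i i' => hpar _ (x i).2 _ (x i').2)) ?_
      refine lt_of_le_of_lt (det_le _ (fun a => ((wt B (e a).1 : ℕ) : ℤ)) fun i a => ?_) ?_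
      · exact mon_le (hEB _ (x i).2) _
      · have h2 : ((r.factorial * ∏ β ∈ Mn α, wt B β : ℕ) : ℤ) < ((p ^ (r * (r - 1) / 2) : ℕ) : ℤ) := by
          exact_mod_cast hsz
        rw [← hprod] at h2
        push_cast at h2 ⊢
        exact h2
    have h3 := congrArg (Int.castRingHom ℚ) h1
    rw [RingHom.map_det, map_zero] at h3
    exact h3
  obtain ⟨c, hc, hcA⟩ := hRk X (Fin r) A hdet
  let H : Q3 := ∑ a, monomial (e a).1 (c a)
  have hcoe : ∀ β, coeff β H = ∑ a, if (e a).1 = β then c a else 0 := by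
    intro β
    simp only [H, coeff_sum, coeff_monomial]
  have hH0 : H ≠ 0 := by
    intro h
    apply hc
    funext a
    have h1 := congrArg (coeff (e a).1) h
    rw [hcoe, coeff_zero, Finset.sum_eq_single a] at h1
    · rwa [if_pos rfl] at h1
    · intro b _ hb
      rw [if_neg]
      intro h2
      exact hb (e.injective (Subtype.ext h2))
    · intro h2
      exact absurd (Finset.mem_univ a) h2
  have hHs : ∀ β ∈ H.support, ¬ α ≤ β := by
    intro β hβ
    have h1 := mem_support_iff.1 hβ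
    rw [hcoe] at h1
    obtain ⟨a, -, ha⟩ := Finset.exists_ne_zero_of_sum_ne_zero h1
    have h2 : (e a).1 = β := by
      by_contra h3
      exact ha (if_neg h3)
    rw [← h2]
    exact (mem_Mn (e a).2).2
  have hHh : H.IsHomogeneous 4 := by
    refine IsHomogeneous.sum _ _ _ fun a _ => ?_
    exact isHomogeneous_monomial _ (mem_Mn (e a).2).1
  have hnd : ¬ F ∣ H := fun h => hH0 (hαH H hHs h)
  have h1 := hBez d 4 F H hF hHh hI hnd E hE (fun n hn => ⟨hEF n hn, by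
    have h2 := hcA ⟨n, hn⟩
    rw [← h2]
    unfold ev
    simp only [H, map_sum]
    refine Finset.sum_congr rfl fun a _ => ?_
    simp only [A, eval_monomial]
    rw [one_mul, Finsupp.prod_fintype _ _ (fun i => pow_zero _),
      Finsupp.prod_fintype _ _ (fun i => pow_zero _)]
    push_cast
    rfl⟩)
  omega

end CurveAux

open CurveAux

theorem tCurve (hHgt : S_Hgt) (hSing : S_Sing) (hPrm : S_Prm) (hCov : S_Cov) (hCls : S_Cls)
    (hLead : S_Lead) (hSiz : S_Siz) (hRk : S_Rk) (hBez : S_Bez) : S_Curve := by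
  classical
  obtain ⟨κ, hκ⟩ : ∃ κ : ℕ, κ = 132 * 50 := ⟨_, rfl⟩
  obtain ⟨T, hT⟩ : ∃ T : ℕ, T = 2 ^ (2 * κ) := ⟨_, rfl⟩
  obtain ⟨Q, hQ⟩ : ∃ Q : ℕ, Q = Nat.factorial 15 ^ 2 := ⟨_, rfl⟩
  have hQ1 : 2 ≤ Q := by
    rw [hQ]
    norm_num [Nat.factorial]
  refine ⟨128 ^ 132 + (3072 * T) ^ 132 * 2 ^ 132 * Q, ?_⟩
  intro d N B F hd3 hd8 hB1 hB01 hB12 hBN hF hI E hE hEB
  have hN : 1 ≤ N := (hB1 2).trans hBN
  set P := B 0 * B 1 * B 2 with hP
  have hP1 : 1 ≤ P := Nat.mul_pos (Nat.mul_pos (hB1 0) (hB1 1)) (hB1 2)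
  have hPN : 1 ≤ P ^ 29 * N ^ 9 := Nat.mul_pos (pow_pos hP1 _) (pow_pos hN _)
  by_cases hsmall : E.card ≤ 128
  · calc E.card ^ 132 ≤ 128 ^ 132 := Nat.pow_le_pow_left hsmall _
      _ ≤ (128 ^ 132 + (3072 * T) ^ 132 * 2 ^ 132 * Q) := Nat.le_add_right _ _
      _ ≤ (128 ^ 132 + (3072 * T) ^ 132 * 2 ^ 132 * Q) * (P ^ 29 * N ^ 9) := Nat.le_mul_of_pos_right _ hPN
      _ = _ := by ring
  push Not at hsmall
  -- the number `P0`
  have hex : ∃ m : ℕ, Q * P ^ 29 * N ^ 9 ≤ m ^ 132 :=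
    ⟨Q * P ^ 29 * N ^ 9, Nat.le_self_pow (by norm_num) _⟩
  obtain ⟨P0, hP0, hP0'⟩ : ∃ P0 : ℕ, Q * P ^ 29 * N ^ 9 ≤ P0 ^ 132 ∧ ∀ m < P0, m ^ 132 < Q * P ^ 29 * N ^ 9 :=
    ⟨Nat.find hex, Nat.find_spec hex, fun m hm => not_le.1 (Nat.find_min hex hm)⟩
  have hQP : 2 ≤ Q * P ^ 29 * N ^ 9 := by
    calc 2 ≤ Q := hQ1
      _ ≤ Q * (P ^ 29 * N ^ 9) := Nat.le_mul_of_pos_right _ hPN
      _ = _ := by ring
  have hP2 : 2 ≤ P0 := by
    by_contra h
    have h1 : P0 ^ 132 ≤ 1 ^ 132 := Nat.pow_le_pow_left (by omega) _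
    rw [one_pow] at h1
    omega
  have hP0u : P0 ^ 132 ≤ 2 ^ 132 * (Q * P ^ 29 * N ^ 9) := by
    have h1 := (hP0' (P0 - 1) (by omega)).le
    calc P0 ^ 132 ≤ (2 * (P0 - 1)) ^ 132 := Nat.pow_le_pow_left (by omega) _
      _ = 2 ^ 132 * (P0 - 1) ^ 132 := mul_pow _ _ _
      _ ≤ _ := Nat.mul_le_mul_left _ h1
  -- the integral form
  have hEN : ∀ n ∈ E, ∀ i, |n i| ≤ (N : ℤ) := by
    intro n hn i
    refine ((hEB n hn).1 i).trans ?_
    have : B i ≤ N := by
      fin_cases i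
      · exact (hB01.trans hB12).trans hBN
      · exact hB12.trans hBN
      · exact hBN
    exact_mod_cast this
  obtain ⟨F1, hF1, ⟨c, hc0, hcF⟩, hprim, hcoef⟩ := hHgt d N F hN hF hI E hE
    (fun n hn => ⟨hEN n hn, (hEB n hn).2⟩) (by
      have : d * d ≤ 8 * 8 := Nat.mul_le_mul hd8 hd8
      omega)
  have hEF1 : ∀ n ∈ E, eval n F1 = 0 := by
    intro n hn
    have h1 := ev_map n F1
    rw [hcF] at h1
    unfold ev at h1
    rw [map_mul] at h1
    have h2 := (hEB n hn).2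
    unfold ev at h2
    rw [h2, mul_zero] at h1
    exact_mod_cast h1.symm
  have hgrad : ∀ n : Pt, (∀ j, eval n (pderiv j F1) = 0) → ∀ j, ev n (pderiv j F) = 0 := by
    intro n hn j
    have h1 := ev_map n (pderiv j F1)
    rw [hn j, ← pderiv_map, hcF, pderiv_C_mul] at h1
    unfold ev at h1 ⊢
    rw [map_mul, eval_C, Int.cast_zero] at h1
    exact (mul_eq_zero.1 h1).resolve_left hc0
  -- smooth points
  set E1 := E.filter fun n => ∃ j, eval n (pderiv j F1) ≠ 0 with hE1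
  have hE1c : E.card ≤ 2 * E1.card := by
    have h1 : (E.filter fun n => ¬ ∃ j, eval n (pderiv j F1) ≠ 0).card ≤ d * (d - 1) := by
      refine hSing d F hF hI _ (indep_mono hE (Finset.filter_subset _ _)) ?_
      intro n hn
      rw [Finset.mem_filter] at hn
      refine ⟨(hEB n hn.1).2, hgrad n ?_⟩
      intro j
      by_contra h
      exact hn.2 ⟨j, h⟩
    have h2 : E1.card + (E.filter fun n => ¬ ∃ j, eval n (pderiv j F1) ≠ 0).card = E.card :=
      Finset.card_filter_add_card_filter_not _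
    have h3 : d * (d - 1) ≤ 8 * 7 := Nat.mul_le_mul hd8 (by omega)
    omega
  let g : Pt → ℤ := fun n =>
    if h : ∃ j, eval n (pderiv j F1) ≠ 0 then eval n (pderiv h.choose F1) else 0
  have hg0 : ∀ n ∈ E1, g n ≠ 0 := by
    intro n hn
    have h := (Finset.mem_filter.1 hn).2
    simp only [g]
    rw [dif_pos h]
    exact h.choose_spec
  have hgj : ∀ n ∈ E1, ∃ j, g n = eval n (pderiv j F1) := by
    intro n hn
    have h := (Finset.mem_filter.1 hn).2
    refine ⟨h.choose, ?_⟩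
    simp only [g]
    rw [dif_pos h]
  have hgl : ∀ n ∈ E1, |g n| < (P0 : ℤ) ^ κ := by
    intro n hn
    obtain ⟨j, hj⟩ := hgj n hn
    rw [hj]
    have hnE := (Finset.mem_filter.1 hn).1
    refine lt_of_le_of_lt (grad_le hd8 hN hF1 hcoef (hEN n hnE) j) ?_
    have h45 : (d + 1) * (d + 2) / 2 ≤ 45 := by
      have : (d + 1) * (d + 2) ≤ 9 * 10 := Nat.mul_le_mul (by omega) (by omega)
      omega
    have h1 : ((d + 1) * (d + 2) / 2 * N ^ d) ^ ((d + 1) * (d + 2) / 2) ≤ (45 * N ^ 8) ^ 45 := by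
      have h2 : (d + 1) * (d + 2) / 2 * N ^ d ≤ 45 * N ^ 8 :=
        Nat.mul_le_mul h45 (Nat.pow_le_pow_right hN hd8)
      refine (Nat.pow_le_pow_left h2 _).trans (Nat.pow_le_pow_right ?_ h45)
      exact Nat.mul_pos (by norm_num) (pow_pos hN _)
    have h3 : 5832 * (((d + 1) * (d + 2) / 2 * N ^ d) ^ ((d + 1) * (d + 2) / 2)) * N ^ 8 <
        P0 ^ κ := by
      calc 5832 * (((d + 1) * (d + 2) / 2 * N ^ d) ^ ((d + 1) * (d + 2) / 2)) * N ^ 8
          ≤ 5832 * (45 * N ^ 8) ^ 45 * N ^ 8 := by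
            exact Nat.mul_le_mul_right _ (Nat.mul_le_mul_left _ h1)
        _ = (5832 * 45 ^ 45) * N ^ 368 := by ring
        _ < Q ^ 50 * N ^ 368 := by
            refine Nat.mul_lt_mul_of_pos_right ?_ (pow_pos hN _)
            rw [hQ]
            norm_num [Nat.factorial]
        _ ≤ Q ^ 50 * N ^ 450 := Nat.mul_le_mul_left _ (Nat.pow_le_pow_right hN (by norm_num))
        _ ≤ Q ^ 50 * N ^ 450 * P ^ 1450 := Nat.le_mul_of_pos_right _ (pow_pos hP1 _)
        _ = (Q * P ^ 29 * N ^ 9) ^ 50 := by ring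
        _ ≤ (P0 ^ 132) ^ 50 := Nat.pow_le_pow_left hP0 _
        _ = P0 ^ κ := by rw [hκ, ← pow_mul]
    exact_mod_cast h3
  -- the prime
  obtain ⟨p, hp, hPp, hpu, hE2⟩ := hPrm κ P0 (by rw [hκ]; norm_num) hP2 E1 g
    (fun n hn => ⟨hg0 n hn, hgl n hn⟩)
  rw [← hT] at hpu
  set E2 := E1.filter fun n => ¬ (p : ℤ) ∣ g n with hE2d
  have : Fact p.Prime := ⟨hp⟩
  have hE2E : E2 ⊆ E := (Finset.filter_subset _ _).trans (Finset.filter_subset _ _)
  have hE2g : ∀ n ∈ E2, ∃ j, ¬ (p : ℤ) ∣ eval n (pderiv j F1) := by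
    intro n hn
    obtain ⟨h1, h2⟩ := Finset.mem_filter.1 hn
    obtain ⟨j, hj⟩ := hgj n h1
    exact ⟨j, hj ▸ h2⟩
  have hE2n : ∀ n ∈ E2, ∃ j, ¬ (p : ℤ) ∣ n j := by
    intro n hn
    obtain ⟨j, hj⟩ := hE2g n hn
    by_contra hcon
    push Not at hcon
    exact hj (dvd_eval (e := d - 1) (by omega) hF1.pderiv hcon)
  obtain ⟨cl, hcl1, hcl2⟩ := hCov p d F1 hF1 (hprim p hp) E2
    (fun n hn => ⟨by rw [hEF1 n (hE2E hn)]; exact dvd_zero _, hE2n n hn⟩)
  have hE2c : E2.card ≤ 32 * (3 * d * p) := by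
    have h1 := Finset.card_le_mul_card_image (f := cl) E2 32 (fun a _ => by
      refine class_card hCls hLead hSiz hRk hBez (P0 := P0) hp (B := B) (F := F) (F1 := F1) hd3 hd8
        hB1 hB01 hB12 hBN hF hI hF1 (by rw [← hQ]; exact hP0) hPp
        (indep_mono hE ((Finset.filter_subset _ _).trans hE2E)) ?_ ?_ ?_ ?_ ?_ ?_
      · exact fun n hn => (hEB n (hE2E (Finset.mem_filter.1 hn).1)).1
      · exact fun n hn => (hEB n (hE2E (Finset.mem_filter.1 hn).1)).2
      · exact fun n hn => hEF1 n (hE2E (Finset.mem_filter.1 hn).1)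
      · exact fun n hn => hE2g n (Finset.mem_filter.1 hn).1
      · exact fun n hn => hE2n n (Finset.mem_filter.1 hn).1
      · intro n hn n' hn'
        obtain ⟨h2, h3⟩ := Finset.mem_filter.1 hn
        obtain ⟨h4, h5⟩ := Finset.mem_filter.1 hn'
        exact hcl2 n h2 n' h4 (h3.trans h5.symm))
    refine h1.trans (Nat.mul_le_mul_left _ ?_)
    have h2 : E2.image cl ⊆ Finset.range (3 * d * p) := by
      intro a ha
      obtain ⟨n, hn, rfl⟩ := Finset.mem_image.1 ha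
      exact Finset.mem_range.2 (hcl1 n hn)
    have h3 := Finset.card_le_card h2
    rwa [Finset.card_range] at h3
  -- the end
  have hfin : E.card ≤ 3072 * T * P0 := by
    have h1 : 3 * d * p ≤ 24 * p := Nat.mul_le_mul_right _ (by omega)
    have h2 : 3072 * p ≤ 3072 * (T * P0) := Nat.mul_le_mul_left _ hpu
    rw [mul_assoc]
    omega
  calc E.card ^ 132 ≤ (3072 * T * P0) ^ 132 := Nat.pow_le_pow_left hfin _
    _ = (3072 * T) ^ 132 * P0 ^ 132 := mul_pow _ _ _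
    _ ≤ (3072 * T) ^ 132 * (2 ^ 132 * (Q * P ^ 29 * N ^ 9)) := Nat.mul_le_mul_left _ hP0u
    _ = ((3072 * T) ^ 132 * 2 ^ 132 * Q) * P ^ 29 * N ^ 9 := by ring
    _ ≤ (128 ^ 132 + (3072 * T) ^ 132 * 2 ^ 132 * Q) * P ^ 29 * N ^ 9 :=
        Nat.mul_le_mul_right _ (Nat.mul_le_mul_right _ (Nat.le_add_left _ _))

end Pool.Agent.Lib.HS.D
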