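import Pool.Agent.Lib.HS.D.Spec

/-!
# PROJECT HS, part (D), module Fac: factorisation of forms (helper96)
-/

set_option autoImplicit false

open MvPolynomial

noncomputable section

namespace Pool.Agent.Lib.HS.D

namespace FacAux

/-- A form of degree `0` is a constant. -/
theorem eq_C {F : Q3} (h0 : F ≠ 0) (h : F.IsHomogeneous 0) : F = C (coeff 0 F) :=
  totalDegree_eq_zero_iff_eq_C.1 (h.totalDegree h0)

theorem coeff_ne {F : Q3} (h0 : F ≠ 0) (h : F.IsHomogeneous 0) : coeff 0 F ≠ 0 := by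
  intro hc
  apply h0
  rw [eq_C h0 h, hc, C_0]

/-- A form of degree `0`, not `0`, is a unit. -/
theorem isUnit {F : Q3} (h0 : F ≠ 0) (h : F.IsHomogeneous 0) : IsUnit F := by
  rw [eq_C h0 h]
  exact (IsUnit.mk0 _ (coeff_ne h0 h)).map C

/-- A unit that is a form has degree `0`. -/
theorem deg_unit (hM : S_HomMul) {F : Q3} {d : ℕ} (hu : IsUnit F) (h : F.IsHomogeneous d) :
    d = 0 := by
  obtain ⟨B, hB⟩ := hu.exists_right_inv
  have h1 : F * B ≠ 0 := by
    rw [hB]
    exact one_ne_zero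
  have h2 : (F * B).IsHomogeneous 0 := by
    rw [hB]
    exact isHomogeneous_one (Fin 3) ℚ
  obtain ⟨a, b, hab, hFa, -⟩ := hM 0 F B h1 h2
  have h3 : a = d := hFa.inj_right h hu.ne_zero
  omega

theorem ev_mul (n : Pt) (A B : Q3) : ev n (A * B) = ev n A * ev n B := by
  unfold ev
  exact map_mul _ A B

end FacAux

open FacAux in
/-- (Fac) FACTORISATION OF FORMS. -/
theorem tFac : S_HomMul → S_Fac := by
  intro hM d
  induction d using Nat.strong_induction_on with
  | _ d ih =>
    intro F hF0 hF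
    rcases Nat.eq_zero_or_pos d with hd | hd
    · subst hd
      refine ⟨0, fun i => i.elim0, fun i => i.elim0, le_rfl, fun i => i.elim0, fun n hn => ?_⟩
      exfalso
      apply coeff_ne hF0 hF
      rw [eq_C hF0 hF] at hn
      unfold ev at hn
      rw [eval_C] at hn
      exact hn
    by_cases hirr : Irreducible F
    · exact ⟨1, fun _ => F, fun _ => d, hd, fun _ => ⟨hirr, hF, hd, le_rfl⟩, fun n hn => ⟨0, hn⟩⟩
    have hnu : ¬ IsUnit F := fun hu => by
      have := deg_unit hM hu hF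
      omega
    obtain ⟨A, B, hAB, hA, hB⟩ : ∃ A B : Q3, F = A * B ∧ ¬ IsUnit A ∧ ¬ IsUnit B := by
      by_contra hcon
      push Not at hcon
      apply hirr
      refine irreducible_iff.2 ⟨hnu, fun A B hAB => ?_⟩
      by_cases hA : IsUnit A
      · exact Or.inl hA
      · exact Or.inr (hcon A B hAB hA)
    have hAB0 : A * B ≠ 0 := hAB ▸ hF0
    have hA0 : A ≠ 0 := left_ne_zero_of_mul hAB0
    have hB0 : B ≠ 0 := right_ne_zero_of_mul hAB0
    obtain ⟨a, b, hab, hAa, hBb⟩ := hM d A B hAB0 (hAB ▸ hF)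
    have ha1 : a ≠ 0 := by
      rintro rfl
      exact hA (isUnit hA0 hAa)
    have hb1 : b ≠ 0 := by
      rintro rfl
      exact hB (isUnit hB0 hBb)
    obtain ⟨q1, G1, e1, hq1, hG1, hz1⟩ := ih a (by omega) A hA0 hAa
    obtain ⟨q2, G2, e2, hq2, hG2, hz2⟩ := ih b (by omega) B hB0 hBb
    refine ⟨q1 + q2, Fin.append G1 G2, Fin.append e1 e2, by omega, ?_, ?_⟩
    · refine fun i => Fin.addCases (fun i => ?_) (fun i => ?_) i
      · rw [Fin.append_left, Fin.append_left]
        obtain ⟨h1, h2, h3, h4⟩ := hG1 i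
        exact ⟨h1, h2, h3, by omega⟩
      · rw [Fin.append_right, Fin.append_right]
        obtain ⟨h1, h2, h3, h4⟩ := hG2 i
        exact ⟨h1, h2, h3, by omega⟩
    · intro n hn
      rw [hAB, ev_mul] at hn
      rcases mul_eq_zero.1 hn with h | h
      · obtain ⟨i, hi⟩ := hz1 n h
        refine ⟨Fin.castAdd q2 i, ?_⟩
        rw [Fin.append_left]
        exact hi
      · obtain ⟨i, hi⟩ := hz2 n h
        refine ⟨Fin.natAdd q1 i, ?_⟩
        rw [Fin.append_right]
        exact hi

end Pool.Agent.Lib.HS.D
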