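import Pool.Agent.Lib.HS.D.Spec

/-!
# PROJECT HS, part (D), module Hgt: coefficients of the form through many points (helper61)
-/

set_option autoImplicit false

open MvPolynomial

noncomputable section

namespace Pool.Agent.Lib.HS.D

namespace HgtAux

/-- the exponents of degree `d` -/
abbrev Ix (d : ℕ) : Type := ↥(Finset.finsuppAntidiag (Finset.univ : Finset (Fin 3)) d)

theorem mem_Ix {d : ℕ} {α : Fin 3 →₀ ℕ} :
    α ∈ Finset.finsuppAntidiag (Finset.univ : Finset (Fin 3)) d ↔ α.degree = d := by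
  rw [Finset.mem_finsuppAntidiag, Finsupp.degree_eq_sum]
  exact ⟨fun h => h.1, fun h => ⟨h, Finset.subset_univ _⟩⟩

theorem card_Ix (d : ℕ) : Fintype.card (Ix d) = (d + 1) * (d + 2) / 2 := by
  rw [Fintype.card_coe, Finset.card_finsuppAntidiag_nat_eq_choose, Finset.card_univ,
    Fintype.card_fin, show 3 + d - 1 = d + 2 by omega, Nat.choose_symm_add,
    Nat.choose_two_right]
  congr 1
  rw [show d + 2 - 1 = d + 1 by omega]
  ring

/-- the form with given coefficients -/
def fm {R : Type} [CommRing R] (d : ℕ) (t : Ix d → R) : MvPolynomial (Fin 3) R :=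
  ∑ β : Ix d, monomial β.1 (t β)

theorem fm_coeff {R : Type} [CommRing R] {d : ℕ} (t : Ix d → R) (β : Ix d) :
    coeff β.1 (fm d t) = t β := by
  classical
  unfold fm
  rw [coeff_sum, Finset.sum_eq_single β]
  · rw [coeff_monomial, if_pos rfl]
  · intro γ _ hγ
    rw [coeff_monomial, if_neg (fun h => hγ (Subtype.ext h))]
  · intro h
    exact absurd (Finset.mem_univ β) h

theorem fm_hom {R : Type} [CommRing R] {d : ℕ} (t : Ix d → R) : (fm d t).IsHomogeneous d := by
  unfold fm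
  exact IsHomogeneous.sum _ _ _ fun β _ => isHomogeneous_monomial _ (mem_Ix.1 β.2)

theorem fm_self {R : Type} [CommRing R] {d : ℕ} {F : MvPolynomial (Fin 3) R}
    (hF : F.IsHomogeneous d) : fm d (fun β => coeff β.1 F) = F := by
  ext α
  by_cases hα : α ∈ Finset.finsuppAntidiag (Finset.univ : Finset (Fin 3)) d
  · exact fm_coeff _ ⟨α, hα⟩
  · have h : α.degree ≠ d := fun h => hα (mem_Ix.2 h)
    rw [(fm_hom _).coeff_eq_zero h, hF.coeff_eq_zero h]

/-- the monomials at a point -/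
def row (d : ℕ) (n : Pt) : Ix d → ℚ := fun β => ∏ i, (n i : ℚ) ^ (β.1 i)

theorem fm_ev {d : ℕ} (t : Ix d → ℚ) (n : Pt) : ev n (fm d t) = ∑ β, t β * row d n β := by
  unfold ev fm row
  rw [map_sum]
  refine Finset.sum_congr rfl fun β _ => ?_
  rw [eval_monomial, Finsupp.prod_fintype _ _ fun i => pow_zero _]

/-- the linear form `t` -/
def Lf {d : ℕ} (t : Ix d → ℚ) : (Ix d → ℚ) →ₗ[ℚ] ℚ :=
  ∑ β : Ix d, t β • (LinearMap.proj β : (Ix d → ℚ) →ₗ[ℚ] ℚ)

theorem Lf_apply {d : ℕ} (t w : Ix d → ℚ) : Lf t w = ∑ β, t β * w β := by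
  unfold Lf
  rw [LinearMap.sum_apply]
  rfl

/-- the forms through `E` -/
theorem mult (hB : S_Bez) {d : ℕ} {F : Q3} (hF : F.IsHomogeneous d) (hi : Irreducible F)
    {E : Finset Pt} (hE : Indep E) (hn : ∀ n ∈ E, ev n F = 0) (hc : d * d < E.card)
    {t : Ix d → ℚ} (ht : ∀ n ∈ E, Lf t (row d n) = 0) : ∃ c : ℚ, fm d t = C c * F := by
  have hdvd : F ∣ fm d t := by
    by_contra h
    have := hB d d F (fm d t) hF (fm_hom t) hi h E hE fun n hn' =>
      ⟨hn n hn', by rw [fm_ev, ← Lf_apply]; exact ht n hn'⟩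
    omega
  obtain ⟨A, hA⟩ := hdvd
  by_cases h0 : fm d t = 0
  · exact ⟨0, by rw [h0, map_zero, zero_mul]⟩
  · have hF0 : F ≠ 0 := hi.ne_zero
    have hA0 : A ≠ 0 := by
      rintro rfl
      exact h0 (by rw [hA, mul_zero])
    have h1 := totalDegree_mul_of_isDomain hF0 hA0
    rw [← hA, (fm_hom t).totalDegree h0, hF.totalDegree hF0] at h1
    have h2 : A.totalDegree = 0 := by omega
    rw [totalDegree_eq_zero_iff_eq_C] at h2
    exact ⟨coeff 0 A, by rw [hA, mul_comm, ← h2]⟩

theorem row_ne {d : ℕ} {n : Pt} (hn : n ≠ 0) : row d n ≠ 0 := by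
  obtain ⟨i, hi⟩ := Function.ne_iff.1 hn
  intro h
  have hm : Finsupp.single i d ∈ Finset.finsuppAntidiag (Finset.univ : Finset (Fin 3)) d :=
    mem_Ix.2 (by simp)
  have h1 := congrFun h ⟨Finsupp.single i d, hm⟩
  have h2 : row d n ⟨Finsupp.single i d, hm⟩ = (n i : ℚ) ^ d := by
    unfold row
    rw [Finset.prod_eq_single i]
    · rw [Finsupp.single_eq_same]
    · intro j _ hj
      rw [Finsupp.single_eq_of_ne hj, pow_zero]
    · intro h
      exact absurd (Finset.mem_univ i) h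
  rw [h2, Pi.zero_apply] at h1
  have h3 : (n i : ℚ) ≠ 0 := by exact_mod_cast hi
  exact pow_ne_zero d h3 h1

theorem entry {d N : ℕ} {n : Pt} (hn : ∀ i, |n i| ≤ N) (β : Ix d) :
    ‖∏ i, n i ^ (β.1 i)‖ ≤ (N : ℝ) ^ d := by
  rw [Int.norm_eq_abs, Int.cast_prod, Finset.abs_prod]
  have h1 : (N : ℝ) ^ d = ∏ i : Fin 3, (N : ℝ) ^ (β.1 i) := by
    rw [Finset.prod_pow_eq_pow_sum, ← Finsupp.degree_eq_sum, mem_Ix.1 β.2]
  rw [h1]
  refine Finset.prod_le_prod (fun i _ => abs_nonneg _) fun i _ => ?_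
  rw [Int.cast_pow, abs_pow]
  refine pow_le_pow_left₀ (abs_nonneg _) ?_ _
  exact_mod_cast hn i

attribute [local instance] Matrix.seminormedAddCommGroup

/-- Siegel -/
theorem siegel {d N : ℕ} (hN : 1 ≤ N) {κ : Type} [Fintype κ] (a : κ → Pt)
    (ha : ∀ k i, |a k i| ≤ N) (h0 : 0 < Fintype.card κ)
    (h1 : Fintype.card κ < Fintype.card (Ix d)) :
    ∃ t : Ix d → ℤ, t ≠ 0 ∧ (∀ k, ∑ β, (∏ i, a k i ^ (β.1 i)) * t β = 0) ∧
      ∀ β, |t β| ≤ ((Fintype.card (Ix d) * N ^ d) ^ Fintype.card (Ix d) : ℕ) := by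
  obtain ⟨t, ht0, ht1, ht2⟩ := Int.Matrix.exists_ne_zero_int_vec_norm_le
    (Matrix.of fun (k : κ) (β : Ix d) => ∏ i, a k i ^ (β.1 i)) h1 h0
  refine ⟨t, ht0, fun k => congrFun ht1 k, fun β => ?_⟩
  have hm : (1 : ℝ) ≤ Fintype.card (Ix d) := by
    have : 1 ≤ Fintype.card (Ix d) := by omega
    exact_mod_cast this
  have hNd : (1 : ℝ) ≤ (N : ℝ) ^ d := one_le_pow₀ (by exact_mod_cast hN)
  have hA : ‖(Matrix.of fun (k : κ) (β : Ix d) => ∏ i, a k i ^ (β.1 i))‖ ≤ (N : ℝ) ^ d :=
    (Matrix.norm_le_iff (by positivity)).2 fun k β => entry (ha k) β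
  have hX : (1 : ℝ) ≤ Fintype.card (Ix d) * (N : ℝ) ^ d := by nlinarith
  have h3 : ((Fintype.card (Ix d) : ℝ) *
      max 1 ‖(Matrix.of fun (k : κ) (β : Ix d) => ∏ i, a k i ^ (β.1 i))‖) ≤
      Fintype.card (Ix d) * (N : ℝ) ^ d :=
    mul_le_mul_of_nonneg_left (max_le hNd hA) (by positivity)
  have h4 : (Fintype.card κ : ℝ) / (Fintype.card (Ix d) - Fintype.card κ) ≤
      Fintype.card (Ix d) := by
    have e1 : (1 : ℝ) ≤ Fintype.card (Ix d) - Fintype.card κ := by
      have : (Fintype.card κ : ℝ) + 1 ≤ Fintype.card (Ix d) := by exact_mod_cast h1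
      linarith
    have e2 : (Fintype.card κ : ℝ) ≤ Fintype.card (Ix d) := by exact_mod_cast h1.le
    refine (div_le_self (by positivity) e1).trans e2
  have h5 : ‖t β‖ ≤ ((Fintype.card (Ix d) : ℝ) * (N : ℝ) ^ d) ^ (Fintype.card (Ix d)) := by
    refine (norm_le_pi_norm t β).trans (ht2.trans ?_)
    refine (Real.rpow_le_rpow (by positivity) h3 ?_).trans ?_
    · refine div_nonneg (by positivity) ?_
      have : (Fintype.card κ : ℝ) ≤ Fintype.card (Ix d) := by exact_mod_cast h1.le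
      linarith
    · refine (Real.rpow_le_rpow_of_exponent_le hX h4).trans (le_of_eq ?_)
      rw [Real.rpow_natCast]
  rw [Int.norm_eq_abs] at h5
  exact_mod_cast h5

end HgtAux

open HgtAux in
theorem tHgt : S_Bez → S_Hgt := by
  classical
  intro hB d N F hN hF hi E hE hn hc
  have hF0 : F ≠ 0 := hi.ne_zero
  have hev : ∀ n ∈ E, ev n F = 0 := fun n h => (hn n h).2
  obtain ⟨κ, a, ha, hsp, hli⟩ := exists_linearIndependent' ℚ (fun n : E => row d n.1)
  have : Finite κ := Finite.of_injective a ha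
  have : Fintype κ := Fintype.ofFinite κ
  -- linear forms that vanish on the chosen rows
  have hkey : ∀ t : Ix d → ℚ, (∀ k, Lf t (row d (a k).1) = 0) → ∀ n ∈ E, Lf t (row d n) = 0 := by
    intro t ht n hnE
    have h1 : Submodule.span ℚ (Set.range ((fun n : E => row d n.1) ∘ a)) ≤
        LinearMap.ker (Lf t) := by
      rw [Submodule.span_le]
      rintro _ ⟨k, rfl⟩
      exact ht k
    rw [hsp] at h1
    exact h1 (Submodule.subset_span ⟨⟨n, hnE⟩, rfl⟩)
  -- the number of rows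
  have hpos : 0 < Fintype.card κ := by
    rw [Fintype.card_pos_iff]
    by_contra hne
    rw [not_nonempty_iff] at hne
    obtain ⟨n, hnE⟩ : E.Nonempty := Finset.card_pos.1 (by omega)
    have h1 : row d n ∈ Submodule.span ℚ (Set.range (fun n : E => row d n.1)) :=
      Submodule.subset_span ⟨⟨n, hnE⟩, rfl⟩
    rw [← hsp, Set.range_eq_empty, Submodule.span_empty, Submodule.mem_bot] at h1
    exact row_ne (hE.1 n hnE) h1
  have hlt : Fintype.card κ < Fintype.card (Ix d) := by
    have h1 := hli.fintype_card_le_finrank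
    rw [Module.finrank_fintype_fun_eq_card] at h1
    refine lt_of_le_of_ne h1 fun h2 => ?_
    have h3 : Submodule.span ℚ (Set.range ((fun n : E => row d n.1) ∘ a)) = ⊤ :=
      hli.span_eq_top_of_card_eq_finrank' (by rw [Module.finrank_fintype_fun_eq_card, h2])
    have h4 : Submodule.span ℚ (Set.range ((fun n : E => row d n.1) ∘ a)) ≤
        LinearMap.ker (Lf fun β : Ix d => coeff β.1 F) := by
      rw [Submodule.span_le]
      rintro _ ⟨k, rfl⟩
      change Lf (fun β : Ix d => coeff β.1 F) (row d (a k).1) = 0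
      rw [Lf_apply, ← fm_ev, fm_self hF]
      exact hev _ (a k).2
    rw [h3, top_le_iff] at h4
    apply hF0
    rw [← fm_self hF]
    have h5 : (fun β : Ix d => coeff β.1 F) = 0 := by
      funext β
      have h6 : Pi.single β 1 ∈ LinearMap.ker (Lf fun β : Ix d => coeff β.1 F) := by
        rw [h4]
        exact Submodule.mem_top
      rw [LinearMap.mem_ker, Lf_apply, Finset.sum_eq_single β] at h6
      · rw [Pi.single_eq_same, mul_one] at h6
        exact h6
      · intro γ _ hγ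
        rw [Pi.single_eq_of_ne hγ, mul_zero]
      · intro h
        exact absurd (Finset.mem_univ β) h
    rw [h5]
    unfold fm
    simp
  obtain ⟨t, ht0, ht1, ht2⟩ := siegel hN (fun k => (a k).1) (fun k i => (hn _ (a k).2).1 i)
    hpos hlt
  -- divide by the greatest common divisor
  have hne : (Finset.univ : Finset (Ix d)).Nonempty := by
    rw [← Finset.card_pos, Finset.card_univ]
    omega
  obtain ⟨t', ht', hg⟩ := Finset.extract_gcd t hne
  set g : ℤ := Finset.univ.gcd t with hgdef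
  have hg0 : g ≠ 0 := by
    intro h
    apply ht0
    funext β
    rw [ht' β (Finset.mem_univ β), h, zero_mul, Pi.zero_apply]
  have hle : ∀ β, |t' β| ≤ |t β| := by
    intro β
    rw [ht' β (Finset.mem_univ β), abs_mul]
    have h1 : 1 ≤ |g| := Int.one_le_abs hg0
    nlinarith [abs_nonneg (t' β)]
  have hker : ∀ n ∈ E, Lf (fun β => (t' β : ℚ)) (row d n) = 0 := by
    refine hkey _ fun k => ?_
    have h1 := ht1 k
    have h2 : (g : ℚ) * Lf (fun β => (t' β : ℚ)) (row d (a k).1) = 0 := by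
      rw [Lf_apply, Finset.mul_sum]
      have h3 := congrArg (fun z : ℤ => (z : ℚ)) h1
      simp only [Int.cast_sum, Int.cast_mul, Int.cast_prod, Int.cast_pow, Int.cast_zero] at h3
      rw [← h3]
      refine Finset.sum_congr rfl fun β _ => ?_
      rw [ht' β (Finset.mem_univ β)]
      unfold row
      push_cast
      ring
    have h3 : (g : ℚ) ≠ 0 := by exact_mod_cast hg0
    exact (mul_eq_zero.1 h2).resolve_left h3
  obtain ⟨c, hcF⟩ := mult hB hF hi hE hev hc hker
  refine ⟨fm d t', fm_hom t', ⟨c, ?_, ?_⟩, ?_, ?_⟩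
  · rintro rfl
    rw [map_zero, zero_mul] at hcF
    have h1 : ∀ β, t' β = 0 := by
      intro β
      have h2 := fm_coeff (fun β => (t' β : ℚ)) β
      rw [hcF, coeff_zero] at h2
      exact_mod_cast h2.symm
    apply ht0
    funext β
    rw [ht' β (Finset.mem_univ β), h1, mul_zero, Pi.zero_apply]
  · rw [← hcF]
    unfold fm
    rw [map_sum]
    refine Finset.sum_congr rfl fun β _ => ?_
    rw [map_monomial]
    rfl
  · intro p hp
    by_contra hcon
    push Not at hcon
    have h1 : (p : ℤ) ∣ Finset.univ.gcd t' := Finset.dvd_gcd fun β _ => by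
      rw [← fm_coeff t' β]
      exact hcon β.1
    rw [hg] at h1
    have h2 : p ∣ 1 := by exact_mod_cast h1
    exact hp.one_lt.ne' (Nat.dvd_one.1 h2)
  · intro α
    rw [← card_Ix]
    by_cases hα : α ∈ Finset.finsuppAntidiag (Finset.univ : Finset (Fin 3)) d
    · have h1 := fm_coeff t' ⟨α, hα⟩
      rw [show coeff α (fm d t') = t' ⟨α, hα⟩ from h1]
      exact (hle _).trans (ht2 _)
    · rw [(fm_hom t').coeff_eq_zero (fun h => hα (mem_Ix.2 h)), abs_zero]
      positivity

end Pool.Agent.Lib.HS.D
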