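import Pool.Agent.Lib.HS.D.Spec

/-!
# PROJECT HS, part (D), module HomMul: factors of forms are forms
-/

set_option autoImplicit false

open MvPolynomial

noncomputable section

namespace Pool.Agent.Lib.HS.D

namespace HomMulAux

/-- the substitution `X i ↦ X i * t` -/
def sb : Q3 →ₐ[ℚ] Polynomial Q3 := aeval fun i => Polynomial.C (X i) * Polynomial.X

lemma sb_monomial (s : Fin 3 →₀ ℕ) (c : ℚ) :
    sb (monomial s c) = Polynomial.monomial s.degree (monomial s c) := by
  unfold sb
  rw [aeval_monomial]
  have h1 : (s.prod fun i k => (Polynomial.C (X i : Q3) * Polynomial.X) ^ k) =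
      Polynomial.C (s.prod fun i k => (X i : Q3) ^ k) * Polynomial.X ^ s.degree := by
    simp only [Finsupp.prod, mul_pow, Finset.prod_mul_distrib, map_prod, map_pow,
      Finset.prod_pow_eq_pow_sum]
    rfl
  have h2 : (algebraMap ℚ (Polynomial Q3)) c = Polynomial.C (C c) := rfl
  rw [h1, h2, ← mul_assoc, ← Polynomial.C_mul, ← monomial_eq, Polynomial.C_mul_X_pow_eq_monomial]

lemma coeff_sb (F : Q3) (n : ℕ) : (sb F).coeff n = homogeneousComponent n F := by
  induction F using MvPolynomial.induction_on' with
  | monomial s c =>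
    rw [sb_monomial, Polynomial.coeff_monomial,
      homogeneousComponent_of_mem (isHomogeneous_monomial c (rfl : s.degree = s.degree))]
    simp only [eq_comm]
  | add p q hp hq => rw [map_add, Polynomial.coeff_add, hp, hq, map_add]

lemma sb_ne {F : Q3} (hF : F ≠ 0) : sb F ≠ 0 := by
  intro h
  apply hF
  rw [← sum_homogeneousComponent F]
  refine Finset.sum_eq_zero fun i _ => ?_
  rw [← coeff_sb, h, Polynomial.coeff_zero]

lemma hom_of {F : Q3} {a : ℕ} (h1 : (sb F).natDegree ≤ a) (h2 : a ≤ (sb F).natTrailingDegree) :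
    F.IsHomogeneous a := by
  have h3 : ∀ n, n ≠ a → homogeneousComponent n F = 0 := by
    intro n hn
    rw [← coeff_sb]
    rcases lt_or_gt_of_ne hn with h | h
    · exact Polynomial.coeff_eq_zero_of_lt_natTrailingDegree (h.trans_le h2)
    · exact Polynomial.coeff_eq_zero_of_natDegree_lt (h1.trans_lt h)
  have h4 : F = homogeneousComponent a F := by
    ext s
    rw [coeff_homogeneousComponent]
    split_ifs with h
    · rfl
    · have h5 := congrArg (coeff s) (h3 s.degree h)
      rw [coeff_homogeneousComponent, if_pos rfl, coeff_zero] at h5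
      exact h5
  rw [h4]
  exact homogeneousComponent_isHomogeneous a F

end HomMulAux

open HomMulAux in
theorem tHomMul : S_HomMul := by
  intro d A B h0 hd
  have hA : A ≠ 0 := left_ne_zero_of_mul h0
  have hB : B ≠ 0 := right_ne_zero_of_mul h0
  have hPQ : sb A * sb B = Polynomial.monomial d (A * B) := by
    rw [← map_mul]
    ext1 n
    rw [coeff_sb, Polynomial.coeff_monomial, homogeneousComponent_of_mem hd]
    simp only [eq_comm]
  have h1 := Polynomial.natDegree_mul (sb_ne hA) (sb_ne hB)
  have h2 := Polynomial.natTrailingDegree_mul (sb_ne hA) (sb_ne hB)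
  rw [hPQ, Polynomial.natDegree_monomial_eq _ h0] at h1
  rw [hPQ, Polynomial.natTrailingDegree_monomial h0] at h2
  have h3 := Polynomial.natTrailingDegree_le_natDegree (sb A)
  have h4 := Polynomial.natTrailingDegree_le_natDegree (sb B)
  refine ⟨(sb A).natDegree, (sb B).natDegree, h1.symm, hom_of le_rfl ?_, hom_of le_rfl ?_⟩
  · omega
  · omega

end Pool.Agent.Lib.HS.D
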