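import Pool.Agent.Lib.HS.D.Spec

/-!
# The monomials modulo a form
-/

set_option autoImplicit false

open MvPolynomial

noncomputable section

namespace Pool.Agent.Lib.HS.D

namespace LeadAux

/-- the lexicographic order -/
abbrev mo : MonomialOrder (Fin 3) := MonomialOrder.lex

/-- the key of an exponent -/
def key (B : Fin 3 → ℕ) (β : Fin 3 →₀ ℕ) : ℕ ×ₗ mo.syn := toLex (wt B β, mo.toSyn β)

theorem wt_add (B : Fin 3 → ℕ) (β γ : Fin 3 →₀ ℕ) : wt B (β + γ) = wt B β * wt B γ := by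
  simp only [wt, Finsupp.coe_add, Pi.add_apply, pow_add, Finset.prod_mul_distrib]

theorem wt_pos {B : Fin 3 → ℕ} (hB : ∀ i, 1 ≤ B i) (β : Fin 3 →₀ ℕ) : 0 < wt B β :=
  Finset.prod_pos fun i _ => pow_pos (hB i) _

theorem key_le {B : Fin 3 → ℕ} {β α : Fin 3 →₀ ℕ} (h : key B β ≤ key B α) :
    wt B β < wt B α ∨ wt B β = wt B α ∧ mo.toSyn β ≤ mo.toSyn α := by
  have h1 := Prod.Lex.le_iff.1 h
  exact h1

theorem wt_le {B : Fin 3 → ℕ} {β α : Fin 3 →₀ ℕ} (h : key B β ≤ key B α) : wt B β ≤ wt B α := by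
  rcases key_le h with h | h
  · exact h.le
  · exact h.1.le

theorem eq_of_key {B : Fin 3 → ℕ} (hB : ∀ i, 1 ≤ B i) {α α' β β' : Fin 3 →₀ ℕ}
    (hs : β + β' = α + α') (h : key B β ≤ key B α) (h' : key B β' ≤ key B α') : β = α := by
  have hw : wt B β * wt B β' = wt B α * wt B α' := by rw [← wt_add, ← wt_add, hs]
  have h1 := wt_le h
  have h1' := wt_le h'
  have p1 := wt_pos hB β'
  have p2 := wt_pos hB α
  have h2 : ¬ wt B β < wt B α := by
    intro hlt
    have := Nat.mul_lt_mul_of_lt_of_le hlt h1' (wt_pos hB α')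
    omega
  have h2' : ¬ wt B β' < wt B α' := by
    intro hlt
    have := Nat.mul_lt_mul_of_le_of_lt h1 hlt p2
    omega
  rcases key_le h with h3 | ⟨-, h3⟩
  · exact absurd h3 h2
  rcases key_le h' with h4 | ⟨-, h4⟩
  · exact absurd h4 h2'
  have hsum : mo.toSyn β + mo.toSyn β' = mo.toSyn α + mo.toSyn α' := by
    rw [← map_add, ← map_add, hs]
  rcases h3.lt_or_eq with h5 | h5
  · exact absurd hsum (add_lt_add_of_lt_of_le h5 h4).ne
  · exact mo.toSyn.injective h5

theorem coeff_ne {B : Fin 3 → ℕ} (hB : ∀ i, 1 ≤ B i) {F A : Q3} {α α' : Fin 3 →₀ ℕ}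
    (hα : α ∈ F.support) (hmax : ∀ β ∈ F.support, key B β ≤ key B α) (hα' : α' ∈ A.support)
    (hmax' : ∀ β ∈ A.support, key B β ≤ key B α') : coeff (α + α') (F * A) ≠ 0 := by
  classical
  rw [coeff_mul, Finset.sum_eq_single (α, α')]
  · exact mul_ne_zero (mem_support_iff.1 hα) (mem_support_iff.1 hα')
  · rintro ⟨β, β'⟩ hm hne
    rw [Finset.HasAntidiagonal.mem_antidiagonal] at hm
    simp only at hm ⊢
    by_contra h0
    have hb : β ∈ F.support := mem_support_iff.2 (left_ne_zero_of_mul h0)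
    have hb' : β' ∈ A.support := mem_support_iff.2 (right_ne_zero_of_mul h0)
    have e1 := eq_of_key hB hm (hmax _ hb) (hmax' _ hb')
    have e2 : β' = α' := by
      rw [e1] at hm
      exact add_left_cancel hm
    exact hne (by rw [e1, e2])
  · intro h
    exfalso
    apply h
    rw [Finset.HasAntidiagonal.mem_antidiagonal]

end LeadAux

open LeadAux

theorem tLead : S_Lead := by
  intro B F hB hF
  obtain ⟨α, hα, hmax⟩ := Finset.exists_max_image F.support (key B)
    (Finset.nonempty_iff_ne_empty.2 fun h => hF (support_eq_empty.1 h))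
  refine ⟨α, hα, fun β hβ => wt_le (hmax β hβ), ?_⟩
  rintro H hH ⟨A, rfl⟩
  by_contra h0
  have hA : A ≠ 0 := right_ne_zero_of_mul h0
  obtain ⟨α', hα', hmax'⟩ := Finset.exists_max_image A.support (key B)
    (Finset.nonempty_iff_ne_empty.2 fun h => hA (support_eq_empty.1 h))
  exact hH (α + α') (mem_support_iff.2 (coeff_ne hB hα hmax hα' hmax')) (le_self_add)

end Pool.Agent.Lib.HS.D
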