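import Pool.Agent.Lib.HS.D.Spec

/-!
# PROJECT HS, part (D), module Newton (helper2)

The curve near a smooth point modulo `p` is a graph.
-/

set_option autoImplicit false

open MvPolynomial

noncomputable section

namespace Pool.Agent.Lib.HS.D

namespace NewtonAux

lemma map_ae {A B : Type*} [CommRing A] [CommRing B] (φ : A →+* B) (x : Fin 2 → A)
    (F : MvPolynomial (Fin 2) ℤ) : φ (aeval x F) = aeval (fun i => φ (x i)) F :=
  comp_aeval_apply (f := x) φ.toIntAlgHom F

lemma map_ae2 {A B : Type*} [CommRing A] [CommRing B] (φ : A →+* B) (a b : A)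
    (F : MvPolynomial (Fin 2) ℤ) : φ (aeval ![a, b] F) = aeval ![φ a, φ b] F := by
  rw [map_ae]
  have h : (fun i => φ (![a, b] i)) = ![φ a, φ b] := by
    funext i
    fin_cases i <;> rfl
  rw [h]

lemma dif {S : Type*} [CommRing S] (F : MvPolynomial (Fin 2) ℤ) {u u' w : S}
    (h : IsNilpotent (u - u')) : IsNilpotent (aeval ![u, w] F - aeval ![u', w] F) := by
  rw [← mem_nilradical, ← Ideal.Quotient.eq, map_ae2, map_ae2,
    (Ideal.Quotient.eq).2 (mem_nilradical.2 h)]

lemma cst {S : Type*} [CommRing S] (F : MvPolynomial (Fin 2) ℤ) (u0 w0 : ℤ) :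
    aeval ![(u0 : S), (w0 : S)] F = ((eval ![u0, w0] F : ℤ) : S) := by
  have h := map_ae2 (Int.castRingHom S) u0 w0 F
  simp only [eq_intCast] at h
  rw [← h]
  rfl

lemma der {S : Type*} [CommRing S] (u : S) (F : MvPolynomial (Fin 2) ℤ) :
    Polynomial.derivative (aeval ![Polynomial.C u, Polynomial.X] F : Polynomial S) =
      aeval ![Polynomial.C u, Polynomial.X] (pderiv 1 F) := by
  induction F using MvPolynomial.induction_on with
  | C a => simp
  | add p q hp hq => simp only [map_add, hp, hq]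
  | mul_X p i hp =>
    simp only [map_mul, Polynomial.derivative_mul, hp, Derivation.leibniz, aeval_X, map_add,
      smul_eq_mul]
    fin_cases i
    · have h : pderiv (1 : Fin 2) (X (0 : Fin 2) : MvPolynomial (Fin 2) ℤ) = 0 :=
        pderiv_X_of_ne (by decide)
      simp [h]
      ring
    · simp
      ring

lemma ex {S : Type*} [CommRing S] (p : ℕ) [Fact p.Prime] (hp : IsNilpotent ((p : ℤ) : S))
    (f : MvPolynomial (Fin 2) ℤ) (u0 w0 : ℤ) (h1 : (p : ℤ) ∣ eval ![u0, w0] f)
    (h2 : ¬ (p : ℤ) ∣ eval ![u0, w0] (pderiv 1 f)) (u : S) (hu : IsNilpotent (u - (u0 : S))) :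
    ∃! r : S, IsNilpotent ((w0 : S) - r) ∧ aeval ![u, r] f = 0 := by
  have hnil : IsNilpotent (aeval ![u, (w0 : S)] f) := by
    have h3 := dif f (w := (w0 : S)) hu
    rw [cst] at h3
    obtain ⟨c, hc⟩ := h1
    have h4 : IsNilpotent ((eval ![u0, w0] f : ℤ) : S) := by
      rw [hc, Int.cast_mul]
      exact (Commute.all _ _).isNilpotent_mul_right hp
    have h5 := (Commute.all _ _).isNilpotent_add h3 h4
    rwa [sub_add_cancel] at h5
  have hun : IsUnit (aeval ![u, (w0 : S)] (pderiv 1 f)) := by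
    have h3 := dif (pderiv 1 f) (w := (w0 : S)) hu
    rw [cst] at h3
    have hc : IsCoprime (p : ℤ) (eval ![u0, w0] (pderiv 1 f)) :=
      ((Nat.prime_iff_prime_int.1 (Fact.out : p.Prime)).coprime_iff_not_dvd).2 h2
    obtain ⟨a, b, hab⟩ := hc
    have h4 : IsUnit (((b * eval ![u0, w0] (pderiv 1 f) : ℤ)) : S) := by
      have h5 : b * eval ![u0, w0] (pderiv 1 f) = 1 - a * (p : ℤ) := by linarith
      rw [h5]
      have h6 : (((1 - a * (p : ℤ) : ℤ)) : S) = 1 - (a : S) * ((p : ℤ) : S) := by push_cast; ring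
      rw [h6]
      exact ((Commute.all _ _).isNilpotent_mul_left hp).isUnit_one_sub
    rw [Int.cast_mul] at h4
    have h5 := isUnit_of_mul_isUnit_right h4
    have h6 := IsNilpotent.isUnit_add_left_of_commute h3 h5 (Commute.all _ _)
    rwa [add_sub_cancel] at h6
  have hev : ∀ (r : S) (F : MvPolynomial (Fin 2) ℤ),
      Polynomial.aeval r (aeval ![Polynomial.C u, Polynomial.X] F : Polynomial S) =
        aeval ![u, r] F := by
    intro r F
    have h3 := map_ae2 (Polynomial.evalRingHom r) (Polynomial.C u) Polynomial.X F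
    rw [Polynomial.coe_evalRingHom, Polynomial.eval_C, Polynomial.eval_X] at h3
    rw [← h3, Polynomial.coe_aeval_eq_eval]
    rfl
  have h3 := Polynomial.existsUnique_nilpotent_sub_and_aeval_eq_zero
    (P := (aeval ![Polynomial.C u, Polynomial.X] f : Polynomial S)) (x := (w0 : S))
    (by rw [hev]; exact hnil) (by rw [der, hev]; exact hun)
  simp only [hev] at h3
  exact h3

end NewtonAux

open NewtonAux in
theorem tNewton : S_Newton := by
  intro p L hpp hL f u0 w0 h1 h2
  have hp0 : ((p : ℤ) : ZMod (p ^ L)) ^ L = 0 := by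
    have h3 : ((p ^ L : ℕ) : ZMod (p ^ L)) = 0 := ZMod.natCast_self _
    rw [← h3]
    push_cast
    rfl
  have hpn : IsNilpotent ((p : ℤ) : ZMod (p ^ L)) := ⟨L, hp0⟩
  let I : Ideal (Polynomial (ZMod (p ^ L))) := Ideal.span {Polynomial.X ^ L}
  let A := Polynomial (ZMod (p ^ L)) ⧸ I
  let x : A := Ideal.Quotient.mk I Polynomial.X
  have hx : IsNilpotent x := by
    refine ⟨L, ?_⟩
    rw [← map_pow]
    exact Ideal.Quotient.eq_zero_iff_mem.2 (Ideal.subset_span rfl)
  have hpA : IsNilpotent ((p : ℤ) : A) := by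
    have h3 := hpn.map ((Ideal.Quotient.mk I).comp Polynomial.C)
    rwa [map_intCast] at h3
  obtain ⟨g', ⟨hg1, hg2⟩, -⟩ := ex (S := A) p hpA f u0 w0 h1 h2 ((u0 : A) + x)
    (by rwa [add_sub_cancel_left])
  obtain ⟨g, rfl⟩ := Ideal.Quotient.mk_surjective g'
  refine ⟨g, ?_⟩
  intro u w y z hu hw hf
  have hT : (u - (u0 : ZMod (p ^ L))) ^ L = 0 := by
    rw [hu, add_sub_cancel_left, mul_pow]
    have h3 : ((p : ℕ) : ZMod (p ^ L)) ^ L = 0 := by
      rw [← hp0]
      push_cast
      rfl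
    rw [h3, zero_mul]
  let φ : A →+* ZMod (p ^ L) :=
    Ideal.Quotient.lift I (Polynomial.evalRingHom (u - (u0 : ZMod (p ^ L)))) (by
      intro a ha
      obtain ⟨c, rfl⟩ := Ideal.mem_span_singleton.1 ha
      rw [Polynomial.coe_evalRingHom, Polynomial.eval_mul, Polynomial.eval_pow,
        Polynomial.eval_X, hT, zero_mul])
  have hφ : ∀ q : Polynomial (ZMod (p ^ L)), φ (Ideal.Quotient.mk I q) =
      q.eval (u - (u0 : ZMod (p ^ L))) := fun q => rfl
  have hφx : φ x = u - (u0 : ZMod (p ^ L)) := by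
    rw [hφ, Polynomial.eval_X]
  have huR : IsNilpotent (u - (u0 : ZMod (p ^ L))) := ⟨L, hT⟩
  refine (ex (S := ZMod (p ^ L)) p hpn f u0 w0 h1 h2 u huR).unique ⟨?_, hf⟩ ⟨?_, ?_⟩
  · rw [hw, sub_add_cancel_left, isNilpotent_neg_iff]
    exact (Commute.all _ _).isNilpotent_mul_right (by simpa using hpn)
  · have h3 := hg1.map φ
    rwa [map_sub, map_intCast, hφ] at h3
  · have h3 := congrArg φ hg2
    rw [map_ae2, map_zero, map_add, map_intCast, hφx, hφ, add_sub_cancel] at h3
    exact h3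

end Pool.Agent.Lib.HS.D
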