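import Pool.Agent.Lib.HS.D.Spec

/-!
# PROJECT HS, part (D), module Prm: the choice of the prime (helper95)
-/

set_option autoImplicit false

open MvPolynomial

noncomputable section

namespace Pool.Agent.Lib.HS.D

namespace PrmAux

/-- A sequence of primes, from the postulate of Bertrand. -/
lemma exists_seq (P0 : ℕ) (h : 2 ≤ P0) : ∃ p : ℕ → ℕ, StrictMono p ∧
    ∀ i, (p i).Prime ∧ P0 < p i ∧ p i ≤ 2 ^ (i + 1) * P0 := by
  have hex : ∀ x : ℕ, ∃ y : ℕ, x ≠ 0 → y.Prime ∧ x < y ∧ y ≤ 2 * x := by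
    intro x
    by_cases hx : x = 0
    · exact ⟨0, fun h => absurd hx h⟩
    · obtain ⟨q, hq, h1, h2⟩ := Nat.exists_prime_lt_and_le_two_mul x hx
      exact ⟨q, fun _ => ⟨hq, h1, h2⟩⟩
  choose nx hnx using hex
  have hs : ∀ i, nx^[i] P0 ≠ 0 ∧ P0 ≤ nx^[i] P0 ∧ nx^[i] P0 ≤ 2 ^ i * P0 := by
    intro i
    induction i with
    | zero => simp only [Function.iterate_zero, id_eq, pow_zero, one_mul, le_refl, and_true]; omega
    | succ i ih =>
      obtain ⟨h0, h1, h2⟩ := ih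
      obtain ⟨h3, h4, h5⟩ := hnx _ h0
      rw [Function.iterate_succ_apply']
      refine ⟨h3.ne_zero, by omega, ?_⟩
      calc nx (nx^[i] P0) ≤ 2 * nx^[i] P0 := h5
        _ ≤ 2 * (2 ^ i * P0) := Nat.mul_le_mul_left 2 h2
        _ = 2 ^ (i + 1) * P0 := by ring
  have hst : ∀ i, (nx^[i + 1] P0).Prime ∧ nx^[i] P0 < nx^[i + 1] P0 := by
    intro i
    obtain ⟨h3, h4, h5⟩ := hnx _ (hs i).1
    rw [Function.iterate_succ_apply']
    exact ⟨h3, h4⟩
  refine ⟨fun i => nx^[i + 1] P0, strictMono_nat_of_lt_succ fun i => (hst (i + 1)).2, fun i => ?_⟩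
  exact ⟨(hst i).1, lt_of_le_of_lt (hs i).2.1 (hst i).2, (hs (i + 1)).2.2⟩

/-- Few of the primes divide a small number. -/
lemma card_dvd_lt {P0 κ : ℕ} (hP : 2 ≤ P0) {p : ℕ → ℕ} (hp : StrictMono p)
    (hp1 : ∀ i, (p i).Prime ∧ P0 < p i) {x : ℤ} (hx : x ≠ 0) (hx1 : |x| < (P0 : ℤ) ^ κ)
    (S : Finset ℕ) (hS : ∀ i ∈ S, (p i : ℤ) ∣ x) : S.card < κ := by
  have h1 : ∏ q ∈ S.image p, q ∣ x.natAbs := by
    refine Finset.prod_primes_dvd x.natAbs ?_ ?_
    · intro q hq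
      obtain ⟨i, -, rfl⟩ := Finset.mem_image.1 hq
      exact (hp1 i).1.prime
    · intro q hq
      obtain ⟨i, hi, rfl⟩ := Finset.mem_image.1 hq
      exact Int.natCast_dvd.1 (hS i hi)
  rw [Finset.prod_image fun a _ b _ h => hp.injective h] at h1
  have h2 : ∏ i ∈ S, p i ≤ x.natAbs := Nat.le_of_dvd (Int.natAbs_pos.2 hx) h1
  have h3 : P0 ^ S.card ≤ ∏ i ∈ S, p i := Finset.pow_card_le_prod S p P0 fun i _ => (hp1 i).2.le
  have h4 : x.natAbs < P0 ^ κ := by
    have h5 : ((x.natAbs : ℕ) : ℤ) < ((P0 ^ κ : ℕ) : ℤ) := by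
      rw [Int.natCast_natAbs]
      push_cast
      exact hx1
    exact_mod_cast h5
  exact (Nat.pow_lt_pow_iff_right (by omega)).1 ((h3.trans h2).trans_lt h4)

end PrmAux

open PrmAux in
/-- CHOICE OF THE PRIME. -/
theorem tPrm : S_Prm := by
  classical
  intro κ P0 hκ hP E g hg
  obtain ⟨p, hp, hp1⟩ := exists_seq P0 hP
  by_contra hcon
  have hbad : ∀ i ∈ Finset.range (2 * κ),
      E.card + 1 ≤ 2 * (E.filter fun n => (p i : ℤ) ∣ g n).card := by
    intro i hi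
    rw [Finset.mem_range] at hi
    by_contra h1
    refine hcon ⟨p i, (hp1 i).1, (hp1 i).2.1, (hp1 i).2.2.trans ?_, ?_⟩
    · exact Nat.mul_le_mul_right P0 (Nat.pow_le_pow_right (by norm_num) (by omega))
    · have h2 := Finset.card_filter_add_card_filter_not (s := E) (fun n => (p i : ℤ) ∣ g n)
      omega
  have h1 : (2 * κ) * (E.card + 1) ≤
      2 * ∑ i ∈ Finset.range (2 * κ), (E.filter fun n => (p i : ℤ) ∣ g n).card := by
    rw [Finset.mul_sum]
    have h2 := Finset.sum_le_sum hbad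
    rwa [Finset.sum_const, Finset.card_range, smul_eq_mul] at h2
  have h2 : ∑ i ∈ Finset.range (2 * κ), (E.filter fun n => (p i : ℤ) ∣ g n).card =
      ∑ n ∈ E, ((Finset.range (2 * κ)).filter fun i => (p i : ℤ) ∣ g n).card := by
    simp only [Finset.card_filter]
    exact Finset.sum_comm
  have h3 : ∑ n ∈ E, ((Finset.range (2 * κ)).filter fun i => (p i : ℤ) ∣ g n).card ≤
      E.card * κ := by
    refine (Finset.sum_le_card_nsmul E _ κ fun n hn => ?_).trans_eq (smul_eq_mul _ _)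
    exact (card_dvd_lt hP hp (fun i => ⟨(hp1 i).1, (hp1 i).2.1⟩) (hg n hn).1 (hg n hn).2 _
      fun i hi => (Finset.mem_filter.1 hi).2).le
  rw [h2] at h1
  have h4 : 2 * κ * (E.card + 1) ≤ 2 * (E.card * κ) := h1.trans (Nat.mul_le_mul_left 2 h3)
  have h5 : 2 * κ * (E.card + 1) = 2 * (E.card * κ) + 2 * κ := by ring
  omega

end Pool.Agent.Lib.HS.D
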