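import Pool.Agent.Lib.HS.D.Spec

/-!
# Vanishing maximal minors
-/

set_option autoImplicit false

open MvPolynomial

noncomputable section

namespace Pool.Agent.Lib.HS.D

theorem tRk : S_Rk := by
  intro X _ ι _ _ A hdet
  by_contra hcon
  push Not at hcon
  -- the rows span the whole space
  have hspan : Submodule.span ℚ (Set.range A) = ⊤ := by
    by_contra hne
    obtain ⟨f, hf0, hf⟩ := Submodule.exists_le_ker_of_lt_top _ (lt_top_iff_ne_top.mpr hne)
    set c : ι → ℚ := fun a => f (Pi.single a 1) with hc
    have hfc : ∀ v : ι → ℚ, f v = ∑ a, c a * v a := by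
      intro v
      conv_lhs => rw [pi_eq_sum_univ' v]
      rw [map_sum]
      refine Finset.sum_congr rfl fun a _ => ?_
      rw [map_smul, smul_eq_mul, mul_comm]
    have hc0 : c ≠ 0 := by
      intro h0
      apply hf0
      refine LinearMap.ext fun v => ?_
      rw [hfc, h0]
      simp
    obtain ⟨x, hx⟩ := hcon c hc0
    apply hx
    rw [← hfc]
    exact hf (Submodule.subset_span ⟨x, rfl⟩)
  obtain ⟨κ, a, ha, hsp, hli⟩ := exists_linearIndependent' ℚ A
  have : Finite κ := Finite.of_injective a ha
  have := Fintype.ofFinite κ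
  have h1 : Fintype.card κ = Fintype.card ι := by
    rw [linearIndependent_iff_card_eq_finrank_span] at hli
    rw [hli, Set.finrank, hsp, hspan, finrank_top, Module.finrank_fintype_fun_eq_card]
  have e : ι ≃ κ := Fintype.equivOfCardEq h1.symm
  have h2 : LinearIndependent ℚ (Matrix.of fun i b => A (a (e i)) b).row := hli.comp e e.injective
  rw [Matrix.linearIndependent_rows_iff_isUnit, Matrix.isUnit_iff_isUnit_det] at h2
  exact h2.ne_zero (hdet (a ∘ e))

end Pool.Agent.Lib.HS.D
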