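import Pool.Agent.Lib.HS.D.Spec

/-! PROJECT HS, part (D): singular points. -/

set_option autoImplicit false

open MvPolynomial

noncomputable section

namespace Pool.Agent.Lib.HS.D

theorem tSing : S_Bez → S_Sing := by
  intro hBez d F hF hirr E hE hEF
  have hF0 : F ≠ 0 := hirr.ne_zero
  have hd : 1 ≤ d := by
    by_contra h
    have h0 : d = 0 := by omega
    subst h0
    rw [← totalDegree_zero_iff_isHomogeneous, totalDegree_eq_zero_iff_eq_C] at hF
    apply hirr.not_isUnit
    have hc : coeff 0 F ≠ 0 := by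
      intro hc
      rw [hc, C_0] at hF
      exact hF0 hF
    rw [hF]
    exact (isUnit_iff_ne_zero.2 hc).map C
  obtain ⟨j, hj⟩ : ∃ j, pderiv j F ≠ 0 := by
    by_contra h
    push Not at h
    have h1 := hF.sum_X_mul_pderiv
    simp only [h, mul_zero, Finset.sum_const_zero] at h1
    rcases smul_eq_zero.1 h1.symm with h2 | h2
    · omega
    · exact hF0 h2
  have hG : (pderiv j F).IsHomogeneous (d - 1) := hF.pderiv
  refine hBez d (d - 1) F (pderiv j F) hF hG hirr ?_ E hE fun n hn => ⟨(hEF n hn).1, (hEF n hn).2 j⟩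
  intro hdvd
  have h1 := totalDegree_le_of_dvd_of_isDomain hdvd hj
  rw [hF.totalDegree hF0, hG.totalDegree hj] at h1
  omega

end Pool.Agent.Lib.HS.D
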