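import Pool.Agent.Lib.HS.D.Spec

/-!
# The size of the determinants
-/

set_option autoImplicit false

open MvPolynomial

noncomputable section

namespace Pool.Agent.Lib.HS.D

namespace SizAux

/-- the triples of sum 4 -/
def T4 : Finset (ℕ × ℕ × ℕ) :=
  (Finset.range 5 ×ˢ Finset.range 5 ×ˢ Finset.range 5).filter fun t => t.1 + t.2.1 + t.2.2 = 4

/-- the triples which are not above (a, b, c) -/
def U (a b c : ℕ) : Finset (ℕ × ℕ × ℕ) :=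
  T4.filter fun t => ¬ (a ≤ t.1 ∧ b ≤ t.2.1 ∧ c ≤ t.2.2)

/-- the exponent of a triple -/
def toF (t : ℕ × ℕ × ℕ) : Fin 3 →₀ ℕ := Finsupp.equivFunOnFinite.symm ![t.1, t.2.1, t.2.2]

theorem toF_0 (t : ℕ × ℕ × ℕ) : toF t 0 = t.1 := rfl
theorem toF_1 (t : ℕ × ℕ × ℕ) : toF t 1 = t.2.1 := rfl
theorem toF_2 (t : ℕ × ℕ × ℕ) : toF t 2 = t.2.2 := rfl

theorem toF_inj : Function.Injective toF := by
  rintro ⟨a, b, c⟩ ⟨a', b', c'⟩ h
  have h0 : toF (a, b, c) 0 = toF (a', b', c') 0 := by rw [h]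
  have h1 : toF (a, b, c) 1 = toF (a', b', c') 1 := by rw [h]
  have h2 : toF (a, b, c) 2 = toF (a', b', c') 2 := by rw [h]
  rw [toF_0, toF_0] at h0
  rw [toF_1, toF_1] at h1
  rw [toF_2, toF_2] at h2
  simp only at h0 h1 h2
  rw [h0, h1, h2]

theorem Mn_eq (α : Fin 3 →₀ ℕ) : Mn α = (U (α 0) (α 1) (α 2)).image toF := by
  ext β
  rw [Mn, Finset.mem_filter, Finset.mem_finsuppAntidiag, Finset.mem_image]
  constructor
  · rintro ⟨⟨h1, -⟩, h2⟩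
    rw [Fin.sum_univ_three] at h1
    refine ⟨(β 0, β 1, β 2), ?_, ?_⟩
    · rw [U, Finset.mem_filter, T4, Finset.mem_filter]
      refine ⟨⟨?_, h1⟩, ?_⟩
      · simp only [Finset.mem_product, Finset.mem_range]
        omega
      · rintro ⟨a1, a2, a3⟩
        apply h2
        intro i
        fin_cases i
        · exact a1
        · exact a2
        · exact a3
    · ext i
      fin_cases i <;> rfl
  · rintro ⟨t, ht, rfl⟩
    rw [U, Finset.mem_filter, T4, Finset.mem_filter] at ht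
    refine ⟨⟨?_, Finset.subset_univ _⟩, ?_⟩
    · rw [Fin.sum_univ_three]
      exact ht.1.2
    · intro h
      exact ht.2 ⟨h 0, h 1, h 2⟩

theorem card_Mn (α : Fin 3 →₀ ℕ) : (Mn α).card = (U (α 0) (α 1) (α 2)).card := by
  rw [Mn_eq, Finset.card_image_of_injective _ toF_inj]

theorem prod_Mn (B : Fin 3 → ℕ) (α : Fin 3 →₀ ℕ) : ∏ β ∈ Mn α, wt B β =
    B 0 ^ (∑ t ∈ U (α 0) (α 1) (α 2), t.1) * B 1 ^ (∑ t ∈ U (α 0) (α 1) (α 2), t.2.1) *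
      B 2 ^ (∑ t ∈ U (α 0) (α 1) (α 2), t.2.2) := by
  rw [Mn_eq, Finset.prod_image (fun x _ y _ h => toF_inj h)]
  simp only [wt, Fin.prod_univ_three, Finset.prod_mul_distrib, toF_0, toF_1, toF_2,
    Finset.prod_pow_eq_pow_sum]

theorem U3 : ∀ a ∈ Finset.range 4, ∀ b ∈ Finset.range 4, ∀ c ∈ Finset.range 4, a + b + c = 3 →
    (U a b c).card = 12 ∧ (∑ t ∈ U a b c, t.1) + 3 * a = 19 ∧
      (∑ t ∈ U a b c, t.2.1) + 3 * b = 19 ∧ (∑ t ∈ U a b c, t.2.2) + 3 * c = 19 := by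
  decide +kernel

theorem U4 : ∀ a ∈ Finset.range 5, ∀ b ∈ Finset.range 5, ∀ c ∈ Finset.range 5, a + b + c = 4 →
    (U a b c).card = 14 ∧ (∑ t ∈ U a b c, t.1) + a = 20 ∧
      (∑ t ∈ U a b c, t.2.1) + b = 20 ∧ (∑ t ∈ U a b c, t.2.2) + c = 20 := by
  decide +kernel

theorem T4v : T4.card = 15 ∧ (∑ t ∈ T4, t.1) = 20 ∧ (∑ t ∈ T4, t.2.1) = 20 ∧
    (∑ t ∈ T4, t.2.2) = 20 := by
  decide +kernel

theorem U5 {a b c : ℕ} (h : 5 ≤ a + b + c) : U a b c = T4 := by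
  rw [U, Finset.filter_eq_self]
  intro t ht
  rw [T4, Finset.mem_filter] at ht
  have := ht.2
  omega

theorem sq_le {x y : ℕ} (h : x ^ 2 ≤ y ^ 2) : x ≤ y := (Nat.pow_le_pow_iff_left two_ne_zero).1 h

end SizAux

open SizAux

theorem tSiz : S_Siz := by
  intro d N P0 p B α hd hsum hB h01 h12 h2N hw hP hp
  obtain ⟨P, hPd⟩ : ∃ P, P = B 0 * B 1 * B 2 := ⟨_, rfl⟩
  have hB0 := hB 0
  have hB1 := hB 1
  have hB2 := hB 2
  have hP1 : 1 ≤ P := by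
    rw [hPd]
    exact Nat.mul_pos (Nat.mul_pos hB0 hB1) hB2
  have hN1 : 1 ≤ N := hB2.trans h2N
  have hPN : P ≤ B 1 ^ 2 * N := by
    rw [hPd, pow_two]
    exact Nat.mul_le_mul (Nat.mul_le_mul h01 le_rfl) h2N
  rw [← hPd] at hP
  rw [Fin.sum_univ_three] at hsum
  obtain ⟨w, hwd⟩ : ∃ w, w = wt B α := ⟨_, rfl⟩
  have hwe : w = B 0 ^ α 0 * B 1 ^ α 1 * B 2 ^ α 2 := by
    rw [hwd, wt, Fin.prod_univ_three]
  rw [← hwd] at hw
  obtain ⟨Q, hQd⟩ : ∃ Q, Q = ∏ β ∈ Mn α, wt B β := ⟨_, rfl⟩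
  have hQ := prod_Mn B α
  rw [← hQd] at hQ
  rw [card_Mn, ← hQd]
  have hpow : ∀ a b : ℕ, a * 132 ≤ 29 * b → P ^ a ≤ P0 ^ b := by
    intro a b hab
    have h1 : P ^ 29 ≤ P0 ^ 132 := by
      refine le_trans ?_ hP
      have f1 : 1 ≤ Nat.factorial 15 ^ 2 := Nat.one_le_pow _ _ (Nat.factorial_pos _)
      have f2 : 1 ≤ N ^ 9 := Nat.one_le_pow _ _ hN1
      calc P ^ 29 = 1 * P ^ 29 * 1 := by ring
        _ ≤ Nat.factorial 15 ^ 2 * P ^ 29 * N ^ 9 :=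
          Nat.mul_le_mul (Nat.mul_le_mul f1 le_rfl) f2
    have h2 : (P ^ a) ^ 132 ≤ (P0 ^ b) ^ 132 := by
      calc (P ^ a) ^ 132 = P ^ (a * 132) := by rw [pow_mul]
        _ ≤ P ^ (29 * b) := Nat.pow_le_pow_right hP1 hab
        _ = (P ^ 29) ^ b := by rw [pow_mul]
        _ ≤ (P0 ^ 132) ^ b := Nat.pow_le_pow_left h1 b
        _ = (P0 ^ b) ^ 132 := by rw [← pow_mul, ← pow_mul, mul_comm]
    exact (Nat.pow_le_pow_iff_left (by norm_num)).1 h2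
  rcases Nat.lt_or_ge d 4 with hd4 | hd4
  · -- degree 3
    have hd3 : d = 3 := by omega
    subst hd3
    obtain ⟨c1, c2, c3, c4⟩ := U3 (α 0) (Finset.mem_range.2 (by omega)) (α 1)
      (Finset.mem_range.2 (by omega)) (α 2) (Finset.mem_range.2 (by omega)) hsum
    have hQw : Q * w ^ 3 = P ^ 19 := by
      rw [hQ, hwe, hPd]
      have e1 : B 0 ^ 19 = B 0 ^ (∑ t ∈ U (α 0) (α 1) (α 2), t.1) * (B 0 ^ α 0) ^ 3 := by
        rw [← pow_mul, ← pow_add, mul_comm (α 0), c2]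
      have e2 : B 1 ^ 19 = B 1 ^ (∑ t ∈ U (α 0) (α 1) (α 2), t.2.1) * (B 1 ^ α 1) ^ 3 := by
        rw [← pow_mul, ← pow_add, mul_comm (α 1), c3]
      have e3 : B 2 ^ 19 = B 2 ^ (∑ t ∈ U (α 0) (α 1) (α 2), t.2.2) * (B 2 ^ α 2) ^ 3 := by
        rw [← pow_mul, ← pow_add, mul_comm (α 2), c4]
      rw [mul_pow, mul_pow, mul_pow, mul_pow, e1, e2, e3]
      ring
    rw [c1]
    refine ⟨by norm_num, by norm_num, ?_⟩
    have hw6 : P ^ 9 ≤ w ^ 6 * N ^ 9 := by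
      calc P ^ 9 ≤ (B 1 ^ 2 * N) ^ 9 := Nat.pow_le_pow_left hPN 9
        _ = (B 1 ^ 3) ^ 6 * N ^ 9 := by ring
        _ ≤ w ^ 6 * N ^ 9 := Nat.mul_le_mul (Nat.pow_le_pow_left hw 6) le_rfl
    have hQ2 : Q ^ 2 ≤ P ^ 29 * N ^ 9 := by
      have h1 : Q ^ 2 * P ^ 9 ≤ (P ^ 29 * N ^ 9) * P ^ 9 := by
        calc Q ^ 2 * P ^ 9 ≤ Q ^ 2 * (w ^ 6 * N ^ 9) := Nat.mul_le_mul le_rfl hw6
          _ = (Q * w ^ 3) ^ 2 * N ^ 9 := by ring
          _ = (P ^ 29 * N ^ 9) * P ^ 9 := by rw [hQw]; ring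
      exact Nat.le_of_mul_le_mul_right h1 (Nat.pow_pos hP1)
    have h2 : Nat.factorial 12 * Q ≤ P0 ^ 66 := by
      apply SizAux.sq_le
      calc (Nat.factorial 12 * Q) ^ 2 = Nat.factorial 12 ^ 2 * Q ^ 2 := by ring
        _ ≤ Nat.factorial 15 ^ 2 * (P ^ 29 * N ^ 9) :=
          Nat.mul_le_mul (Nat.pow_le_pow_left (Nat.factorial_le (by norm_num)) 2) hQ2
        _ = Nat.factorial 15 ^ 2 * P ^ 29 * N ^ 9 := by ring
        _ ≤ P0 ^ 132 := hP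
        _ = (P0 ^ 66) ^ 2 := by rw [← pow_mul]
    exact lt_of_le_of_lt h2 (Nat.pow_lt_pow_left hp (by norm_num))
  rcases Nat.lt_or_ge d 5 with hd5 | hd5
  · -- degree 4
    have hd4' : d = 4 := by omega
    subst hd4'
    obtain ⟨c1, c2, c3, c4⟩ := U4 (α 0) (Finset.mem_range.2 (by omega)) (α 1)
      (Finset.mem_range.2 (by omega)) (α 2) (Finset.mem_range.2 (by omega)) hsum
    have hQw : Q * w = P ^ 20 := by
      rw [hQ, hwe, hPd]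
      have e1 : B 0 ^ 20 = B 0 ^ (∑ t ∈ U (α 0) (α 1) (α 2), t.1) * B 0 ^ α 0 := by
        rw [← pow_add, c2]
      have e2 : B 1 ^ 20 = B 1 ^ (∑ t ∈ U (α 0) (α 1) (α 2), t.2.1) * B 1 ^ α 1 := by
        rw [← pow_add, c3]
      have e3 : B 2 ^ 20 = B 2 ^ (∑ t ∈ U (α 0) (α 1) (α 2), t.2.2) * B 2 ^ α 2 := by
        rw [← pow_add, c4]
      rw [mul_pow, mul_pow, e1, e2, e3]
      ring
    rw [c1]
    refine ⟨by norm_num, by norm_num, ?_⟩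
    have hw2 : P ^ 4 ≤ w ^ 2 * N ^ 4 := by
      calc P ^ 4 ≤ (B 1 ^ 2 * N) ^ 4 := Nat.pow_le_pow_left hPN 4
        _ = (B 1 ^ 4) ^ 2 * N ^ 4 := by ring
        _ ≤ w ^ 2 * N ^ 4 := Nat.mul_le_mul (Nat.pow_le_pow_left hw 2) le_rfl
    have hQ2 : Q ^ 2 ≤ P ^ 36 * N ^ 4 := by
      have h1 : Q ^ 2 * P ^ 4 ≤ (P ^ 36 * N ^ 4) * P ^ 4 := by
        calc Q ^ 2 * P ^ 4 ≤ Q ^ 2 * (w ^ 2 * N ^ 4) := Nat.mul_le_mul le_rfl hw2
          _ = (Q * w) ^ 2 * N ^ 4 := by ring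
          _ = (P ^ 36 * N ^ 4) * P ^ 4 := by rw [hQw]; ring
      exact Nat.le_of_mul_le_mul_right h1 (Nat.pow_pos hP1)
    have h7 := hpow 7 50 (by norm_num)
    have h2 : Nat.factorial 14 * Q ≤ P0 ^ 91 := by
      apply SizAux.sq_le
      calc (Nat.factorial 14 * Q) ^ 2 = Nat.factorial 14 ^ 2 * Q ^ 2 := by ring
        _ ≤ Nat.factorial 15 ^ 2 * (P ^ 36 * N ^ 4) :=
          Nat.mul_le_mul (Nat.pow_le_pow_left (Nat.factorial_le (by norm_num)) 2) hQ2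
        _ ≤ Nat.factorial 15 ^ 2 * (P ^ 36 * N ^ 9) :=
          Nat.mul_le_mul le_rfl (Nat.mul_le_mul le_rfl (Nat.pow_le_pow_right hN1 (by norm_num)))
        _ = (Nat.factorial 15 ^ 2 * P ^ 29 * N ^ 9) * P ^ 7 := by ring
        _ ≤ P0 ^ 132 * P0 ^ 50 := Nat.mul_le_mul hP h7
        _ = (P0 ^ 91) ^ 2 := by rw [← pow_add, ← pow_mul]
    exact lt_of_le_of_lt h2 (Nat.pow_lt_pow_left hp (by norm_num))
  · -- degree at least 5
    have hU := U5 (a := α 0) (b := α 1) (c := α 2) (by omega)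
    obtain ⟨c1, c2, c3, c4⟩ := T4v
    rw [hU, c2, c3, c4, ← mul_pow, ← mul_pow, ← hPd] at hQ
    rw [hU, c1]
    refine ⟨by norm_num, by norm_num, ?_⟩
    have h11 := hpow 11 78 (by norm_num)
    have h2 : Nat.factorial 15 * Q ≤ P0 ^ 105 := by
      apply SizAux.sq_le
      calc (Nat.factorial 15 * Q) ^ 2 = Nat.factorial 15 ^ 2 * P ^ 40 * 1 := by rw [hQ]; ring
        _ ≤ Nat.factorial 15 ^ 2 * P ^ 40 * N ^ 9 :=
          Nat.mul_le_mul le_rfl (Nat.one_le_pow _ _ hN1)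
        _ = (Nat.factorial 15 ^ 2 * P ^ 29 * N ^ 9) * P ^ 11 := by ring
        _ ≤ P0 ^ 132 * P0 ^ 78 := Nat.mul_le_mul hP h11
        _ = (P0 ^ 105) ^ 2 := by rw [← pow_add, ← pow_mul]
    exact lt_of_le_of_lt h2 (Nat.pow_lt_pow_left hp (by norm_num))

end Pool.Agent.Lib.HS.D
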