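import Pool.Agent.Lib.HS.D.Alt
import Pool.Agent.Lib.HS.D.Newton
import Pool.Agent.Lib.HS.D.Cls
import Pool.Agent.Lib.HS.D.Cov
import Pool.Agent.Lib.HS.D.Prm
import Pool.Agent.Lib.HS.D.HomMul
import Pool.Agent.Lib.HS.D.Fac
import Pool.Agent.Lib.HS.D.Bez
import Pool.Agent.Lib.HS.D.Sing
import Pool.Agent.Lib.HS.D.Hgt
import Pool.Agent.Lib.HS.D.Lead
import Pool.Agent.Lib.HS.D.Siz
import Pool.Agent.Lib.HS.D.Rk
import Pool.Agent.Lib.HS.D.Curve
import Pool.Agent.Lib.HS.D.Ch
import Pool.Agent.Lib.HS.D.Main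

/-!
# PROJECT HS, part (D): the result, without hypotheses
-/

set_option autoImplicit false

namespace Pool.Agent.Lib.HS.D

/-- The bound for irreducible curves of degree at least three. -/
theorem dCurve : S_Curve :=
  tCurve (tHgt (tBez tHomMul)) (tSing (tBez tHomMul)) tPrm tCov (tCls tAlt tNewton) tLead tSiz tRk
    (tBez tHomMul)

/-- The result of part (D). -/
theorem dMain : S_Main := tMain dCurve (tFac tHomMul) tCh

end Pool.Agent.Lib.HS.D
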