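import Pool.Agent.Lib.HS.D.Spec

/-!
# PROJECT HS, part (D), module Main: the result of part (D) (helper24)
-/

set_option autoImplicit false

open MvPolynomial

noncomputable section

namespace Pool.Agent.Lib.HS.D

namespace MainAux

/-- `S_Curve` for a box in any order. -/
theorem curve {C0 : ℕ}
    (h : ∀ (d N : ℕ) (B : Fin 3 → ℕ) (F : Q3), 3 ≤ d → d ≤ 8 → (∀ i, 1 ≤ B i) →
      B 0 ≤ B 1 → B 1 ≤ B 2 → B 2 ≤ N → F.IsHomogeneous d → Irreducible F →
      ∀ E : Finset Pt, Indep E → (∀ n ∈ E, (∀ i, |n i| ≤ B i) ∧ ev n F = 0) →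
      E.card ^ 132 ≤ C0 * (B 0 * B 1 * B 2) ^ 29 * N ^ 9)
    (d N : ℕ) (B : Fin 3 → ℕ) (F : Q3) (hd3 : 3 ≤ d) (hd8 : d ≤ 8)
    (hB : ∀ i, 1 ≤ B i ∧ B i ≤ N) (hF : F.IsHomogeneous d) (hirr : Irreducible F)
    (E : Finset Pt) (hE : Indep E) (hEF : ∀ n ∈ E, (∀ i, |n i| ≤ B i) ∧ ev n F = 0) :
    E.card ^ 132 ≤ C0 * (B 0 * B 1 * B 2) ^ 29 * N ^ 9 := by
  classical
  obtain ⟨s, hs⟩ : ∃ s : Equiv.Perm (Fin 3), s = Tuple.sort B := ⟨_, rfl⟩
  have hmono : Monotone (B ∘ s) := by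
    rw [hs]
    exact Tuple.monotone_sort B
  have hinj : Function.Injective (fun n : Pt => (n ∘ s : Pt)) := by
    intro n n' h
    funext i
    have h1 := congrFun h (s.symm i)
    simpa using h1
  have hirr' : Irreducible (rename s.symm F) := by
    have h1 := (MulEquiv.irreducible_iff (renameEquiv ℚ s.symm)).mpr hirr
    simpa using h1
  have hev : ∀ n : Pt, ev (n ∘ s) (rename s.symm F) = ev n F := by
    intro n
    unfold ev
    rw [eval_rename]
    congr 2
    funext i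
    simp
  have hcard : (E.image fun n : Pt => (n ∘ s : Pt)).card = E.card :=
    Finset.card_image_of_injective _ hinj
  have hP : (B ∘ s) 0 * (B ∘ s) 1 * (B ∘ s) 2 = B 0 * B 1 * B 2 := by
    rw [← Fin.prod_univ_three (B ∘ s), ← Fin.prod_univ_three B]
    exact Equiv.prod_comp s B
  have key := h d N (B ∘ s) (rename s.symm F) hd3 hd8 (fun i => (hB (s i)).1)
    (hmono (by decide)) (hmono (by decide)) (hB (s 2)).2 hF.rename_isHomogeneous hirr'
    (E.image fun n : Pt => (n ∘ s : Pt)) ?_ ?_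
  · rwa [hcard, hP] at key
  · refine ⟨fun n hn => ?_, fun n hn n' hn' hne hpar => ?_⟩
    · obtain ⟨m, hm, rfl⟩ := Finset.mem_image.mp hn
      intro h0
      refine hE.1 m hm (hinj ?_)
      change m ∘ s = (0 : Pt) ∘ s
      rw [h0]
      rfl
    · obtain ⟨m, hm, rfl⟩ := Finset.mem_image.mp hn
      obtain ⟨m', hm', rfl⟩ := Finset.mem_image.mp hn'
      refine hE.2 m hm m' hm' (fun h1 => hne (by rw [h1])) ?_
      intro i j
      have h2 := hpar (s.symm i) (s.symm j)
      simpa using h2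
  · intro n hn
    obtain ⟨m, hm, rfl⟩ := Finset.mem_image.mp hn
    exact ⟨fun i => (hEF m hm).1 (s i), by rw [hev]; exact (hEF m hm).2⟩

end MainAux

open MainAux

theorem tMain : S_Curve → S_Fac → S_Ch → S_Main := by
  rintro ⟨C0, hC0⟩ hFac hCh
  classical
  refine ⟨C0 * 16 ^ 132, fun k N B hB E hE hEB hC hk => ?_⟩
  by_cases hoct : ∀ F : Q3, F.IsHomogeneous 8 → (∀ n ∈ E, ev n F = 0) → F = 0
  · exact Or.inl (hCh E hoct)
  push Not at hoct
  obtain ⟨F, hF8, hFE, hF0⟩ := hoct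
  obtain ⟨q, G, e, hq, hG, hz⟩ := hFac 8 F hF0 hF8
  have hpos : 0 < E.card := by
    by_contra h0
    rw [not_lt, Nat.le_zero] at h0
    rw [h0, zero_pow (by norm_num)] at hC
    exact Nat.not_lt_zero _ hC
  -- a rich component
  obtain ⟨i, hi⟩ : ∃ i : Fin q, E.card ≤ 16 * (E.filter fun n => ev n (G i) = 0).card := by
    by_contra hno
    push Not at hno
    have h1 : E ⊆ Finset.univ.biUnion fun i : Fin q => E.filter fun n => ev n (G i) = 0 := by
      intro n hn
      obtain ⟨i, hi⟩ := hz n (hFE n hn)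
      exact Finset.mem_biUnion.mpr ⟨i, Finset.mem_univ _, Finset.mem_filter.mpr ⟨hn, hi⟩⟩
    have h2 := (Finset.card_le_card h1).trans Finset.card_biUnion_le
    have h3 : 16 * E.card ≤ ∑ i : Fin q, 16 * (E.filter fun n => ev n (G i) = 0).card := by
      rw [← Finset.mul_sum]
      exact Nat.mul_le_mul_left _ h2
    have h4 : ∑ i : Fin q, 16 * (E.filter fun n => ev n (G i) = 0).card ≤ q * E.card := by
      refine (Finset.sum_le_card_nsmul _ _ E.card fun i _ => (hno i).le).trans ?_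
      rw [Finset.card_univ, Fintype.card_fin, smul_eq_mul]
    have h5 : q * E.card ≤ 8 * E.card := Nat.mul_le_mul_right _ hq
    omega
  have hsub : (E.filter fun n => ev n (G i) = 0) ⊆ E := Finset.filter_subset _ _
  have hkE : k ≤ (E.filter fun n => ev n (G i) = 0).card := by omega
  have hzero : ∀ n ∈ E.filter fun n => ev n (G i) = 0, ev n (G i) = 0 := fun n hn =>
    (Finset.mem_filter.mp hn).2
  have hle : e i ≤ 2 := by
    by_contra h3
    have h4 := curve hC0 (e i) N B (G i) (by omega) (hG i).2.2.2 hB (hG i).2.1 (hG i).1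
      (E.filter fun n => ev n (G i) = 0)
      ⟨fun n hn => hE.1 n (hsub hn), fun n hn n' hn' => hE.2 n (hsub hn) n' (hsub hn')⟩
      (fun n hn => ⟨hEB n (hsub hn), hzero n hn⟩)
    have h5 := Nat.pow_le_pow_left hi 132
    rw [mul_pow] at h5
    have h6 := h5.trans (Nat.mul_le_mul_left (16 ^ 132) h4)
    have h7 : 16 ^ 132 * (C0 * (B 0 * B 1 * B 2) ^ 29 * N ^ 9) =
        C0 * 16 ^ 132 * (B 0 * B 1 * B 2) ^ 29 * N ^ 9 := by ring
    rw [h7] at h6
    exact absurd hC (not_lt.mpr h6)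
  have h1 := (hG i).2.2.1
  rcases Nat.lt_or_ge (e i) 2 with h2 | h2
  · have he : e i = 1 := by omega
    have hhom := (hG i).2.1
    rw [he] at hhom
    exact Or.inr (Or.inl ⟨_, hsub, hkE, G i, hhom, (hG i).1.ne_zero, hzero⟩)
  · have he : e i = 2 := by omega
    have hhom := (hG i).2.1
    rw [he] at hhom
    exact Or.inr (Or.inr ⟨_, hsub, hkE, G i, hhom, (hG i).1, hzero⟩)

end Pool.Agent.Lib.HS.D
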