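import Mathlib

/-!
# PROJECT HS, part (D): many square points in a plane

Statements with complete proofs in the docstrings.  Main result `S_Main`: a large set of integral
points of a projective plane in a box contains `45` points with no octic through them, or `k` points on
a line, or `k` points on an irreducible conic.

Method: the `p`-adic determinant method with quartic forms for irreducible curves of degree `3, …, 8`
(exponent `8 / 11 < 3 / 4`); everything is algebraic.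
-/

set_option autoImplicit false

open MvPolynomial

noncomputable section

namespace Pool.Agent.Lib.HS.D

/-- Ternary polynomials with rational coefficients. -/
abbrev Q3 : Type := MvPolynomial (Fin 3) ℚ

/-- Ternary polynomials with integral coefficients. -/
abbrev Z3 : Type := MvPolynomial (Fin 3) ℤ

/-- Integral vectors. -/
abbrev Pt : Type := Fin 3 → ℤ

/-- The value of a polynomial at an integral vector. -/
def ev (n : Pt) (F : Q3) : ℚ := eval (fun i => (n i : ℚ)) F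

/-- `n`, `n'` are proportional. -/
def Par (n n' : Pt) : Prop := ∀ i j, n i * n' j = n j * n' i

/-- `n`, `n'` are proportional modulo `p`. -/
def ParP (p : ℕ) (n n' : Pt) : Prop := ∀ i j, (p : ℤ) ∣ n i * n' j - n j * n' i

/-- The vectors of `E` are different from `0` and pairwise not proportional. -/
def Indep (E : Finset Pt) : Prop :=
  (∀ n ∈ E, n ≠ 0) ∧ ∀ n ∈ E, ∀ n' ∈ E, n ≠ n' → ¬ Par n n'

/-- The size of the monomial with exponent `α` on the box `B`. -/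
def wt (B : Fin 3 → ℕ) (α : Fin 3 →₀ ℕ) : ℕ := ∏ i, B i ^ α i

/-- The exponents of degree `4` which are not multiples of `α`. -/
def Mn (α : Fin 3 →₀ ℕ) : Finset (Fin 3 →₀ ℕ) :=
  (Finset.finsuppAntidiag (Finset.univ : Finset (Fin 3)) 4).filter fun β => ¬ α ≤ β

/-! ## Algebra modulo powers of `p` -/

/-- (Alt) ALTERNANTS.

PROOF.  `f a = ∑ l < D, b a l X ^ l`.  Rows indexed by `a` (transpose: `Matrix.det_transpose`): row `a`
is `∑ l : Fin D, (b a l * π ^ l) • (fun i => y i ^ l)`.  `Matrix.detRowAlternating` is multilinear: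
`MultilinearMap.map_sum`, `map_smul_univ`: the determinant is
`∑ l : Fin r → Fin D, (∏ a, b a (l a) * π ^ (l a)) * det (fun a i => y i ^ (l a))`.  If `l` is not
injective the last determinant has two equal rows.  If `l` is injective then `∑ a, l a` is at least
`0 + 1 + … + (r - 1) = r (r - 1) / 2` (`Finset.sum_range_id_le_sum`-type statement for the finite set
`image l univ` with `r` elements), so `∏ a, π ^ (l a) = π ^ (∑ l a) = 0`. -/
def S_Alt : Prop :=
  ∀ (R : Type) [CommRing R] (π : R) (r : ℕ) (y : Fin r → R) (f : Fin r → Polynomial R),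
    π ^ (r * (r - 1) / 2) = 0 → (Matrix.of fun i a => (f a).eval (π * y i)).det = 0

/-- (Newton) THE CURVE NEAR A SMOOTH POINT MODULO `p` IS A GRAPH.

PROOF.  `R = ZMod (p ^ L)`, `A = R[X] / (X ^ L)`.  In `A` the image of `p` and the class of `X` are
nilpotent.  Let `P ∈ A[W]` be `f(u0 + X, W)`.  `P(w0) = f(u0 + X, w0)` is `f(u0,w0)` plus a multiple of
`X`, and `f(u0,w0)` is a multiple of `p`: nilpotent.  `P'(w0)` is `(pderiv 1 f)(u0,w0)`, a unit of `R`
(an integer prime to `p`), plus a nilpotent element: a unit (`IsNilpotent.isUnit_add_left_of_commute`).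
`Polynomial.existsUnique_nilpotent_sub_and_aeval_eq_zero` gives `g' ∈ A` with `w0 - g'` nilpotent and
`P(g') = 0`; let `g ∈ R[X]` be a lift.  Let `u = u0 + p y`, `w = w0 + p z`, `f(u,w) = 0`.  `T = u - u0 = p y`
has `T ^ L = 0`, so `X ↦ T` defines a homomorphism `A → R`; it maps `g'` to `g(T)`, and `P` to
`f(u, W) ∈ R[W]`: `g(T)` is a root of `f(u, W)` with `w0 - g(T)` nilpotent.  `w` is another root with
`w0 - w` nilpotent.  The uniqueness in the same theorem, for the polynomial `f(u, W)` over `R`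
(its value at `w0` is nilpotent and its derivative at `w0` is a unit as above), gives `w = g(T)`. -/
def S_Newton : Prop :=
  ∀ (p L : ℕ) [Fact p.Prime], 1 ≤ L → ∀ (f : MvPolynomial (Fin 2) ℤ) (u0 w0 : ℤ),
    (p : ℤ) ∣ eval ![u0, w0] f → ¬ (p : ℤ) ∣ eval ![u0, w0] (pderiv 1 f) →
    ∃ g : Polynomial (ZMod (p ^ L)), ∀ u w y z : ZMod (p ^ L),
      u = (u0 : ZMod (p ^ L)) + (p : ZMod (p ^ L)) * y →
      w = (w0 : ZMod (p ^ L)) + (p : ZMod (p ^ L)) * z →
      aeval ![u, w] f = 0 → w = g.eval (u - (u0 : ZMod (p ^ L)))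

/-- (Cls) DETERMINANTS ON ONE CLASS.

PROOF.  `r = 0` or `r = 1`: the exponent is `0`.  Let `r ≥ 2`, `L = r (r - 1) / 2 ≥ 1`, `R = ZMod (p ^ L)`.
Let `c` with `p ∤ n_0 c` (`n_0` the first point).  Then `p ∤ n_i c` for all `i` (if `p ∣ n_i c` then by
`ParP` `p ∣ n_0 c * n_i j` for all `j`, so `p ∣ n_i j` for all `j`).  Euler: `∑ j, n_0 j * (∂_j F)(n_0) = d F(n_0)
= 0` (`IsHomogeneous.sum_X_mul_pderiv`), so some `j ≠ c` has `p ∤ (∂_j F)(n_0)`, and then
`p ∤ (∂_j F)(n_i)` for all `i` (`∂_j F` is homogeneous and `n_i c • n_0 ≡ n_0 c • n_i` modulo `p`).  Let `o`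
be the third index.  `f ∈ ℤ[u,w]` is `F` with `X_c = 1`, `X_o = u`, `X_j = w` (`aeval`).  In `R` the `n_i c`
are units; `u_i = n_i o / n_i c`, `w_i = n_i j / n_i c`; `F(n_i) = 0` gives `f(u_i,w_i) = 0` in `R`
(homogeneity: `F(n_i) = (n_i c)^d F(n_i / n_i c)`).  Choose integers `u0`, `w0` congruent to `u_0`, `w_0`
modulo `p` (`ZMod p` is a quotient of `R`): by `ParP` `u_i = u0 + p y_i`, `w_i = w0 + p z_i` in `R`.
`p ∣ f(u0,w0)`, `p ∤ (∂_w f)(u0,w0)`.  `S_Newton`: `w_i = g(u_i - u0)`.  So `M a (n_i) = (n_i c)^e f_a(p y_i)`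
with `f_a ∈ R[X]` the polynomial `M a` at `X_c = 1`, `X_o = u0 + X`, `X_j = g(X)`.  By `S_Alt` with
`π = p`, `π ^ L = 0` the determinant of the `f_a(p y_i)` is `0` in `R`, and `det (M a (n_i)) =
∏ (n_i c)^e * det (f_a (p y_i))` (`Matrix.det_mul_column`/`det_mul_row`).  `ZMod.intCast_zmod_eq_zero_iff_dvd`
(or `intCast_zmod_cast`...). -/
def S_Cls : Prop :=
  ∀ (p : ℕ) [Fact p.Prime] (r d e : ℕ) (F : Z3) (n : Fin r → Pt) (M : Fin r → Z3),
    F.IsHomogeneous d → (∀ a, (M a).IsHomogeneous e) → (∀ i, eval (n i) F = 0) →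
    (∀ i, ∃ j, ¬ (p : ℤ) ∣ eval (n i) (pderiv j F)) → (∀ i, ∃ j, ¬ (p : ℤ) ∣ n i j) →
    (∀ i i', ParP p (n i) (n i')) →
    (p : ℤ) ^ (r * (r - 1) / 2) ∣ (Matrix.of fun i a => eval (n i) (M a)).det

/-- (Cov) THE NUMBER OF CLASSES.

PROOF.  For `n ∈ E` let `c` be the least index with `p ∤ n c`, and `(u, w) ∈ (ZMod p)^2` the quotients
`n j / n c` of the two other coordinates.  `(c, u, w)` determines `n` modulo `p` up to a factor, so equal
triples imply `ParP`.  For given `c` the pair `(u,w)` is a zero of `f_c`, the reduction of `F` modulo `p`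
with `X_c = 1`, which is not `0` (`F` is homogeneous and not `0` modulo `p`: different monomials of `F` give
different monomials of `f_c`), of total degree `≤ d`: at most `d p` zeros in `(ZMod p)^2`
(`MvPolynomial.schwartz_zippel_totalDegree` with `S = Finset.univ`).  So the number of triples is at most
`3 d p`; enumerate them. -/
def S_Cov : Prop :=
  ∀ (p : ℕ) [Fact p.Prime] (d : ℕ) (F : Z3), F.IsHomogeneous d → (∃ α, ¬ (p : ℤ) ∣ coeff α F) →
    ∀ E : Finset Pt, (∀ n ∈ E, (p : ℤ) ∣ eval n F ∧ ∃ j, ¬ (p : ℤ) ∣ n j) →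
    ∃ cl : Pt → ℕ, (∀ n ∈ E, cl n < 3 * d * p) ∧
      ∀ n ∈ E, ∀ n' ∈ E, cl n = cl n' → ParP p n n'

/-- (Prm) CHOICE OF THE PRIME.

PROOF.  Bertrand (`Nat.exists_prime_lt_and_le_two_mul`): primes `P0 < p_1 < p_2 < … < p_(2 κ)` with
`p_i ≤ 2 ^ i * P0`.  For `n ∈ E` at most `κ - 1` of the `p_i` divide `g n` (their product divides `g n ≠ 0`
and is `> P0 ^ (number)`; `Finset.prod_primes_dvd`).  So the number of pairs `(n, i)` with `p_i ∣ g n` is
`≤ κ |E|`, and for some `i` it is `≤ |E| / 2` (double counting, `2 κ` primes). -/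
def S_Prm : Prop :=
  ∀ (κ P0 : ℕ), 1 ≤ κ → 2 ≤ P0 → ∀ (E : Finset Pt) (g : Pt → ℤ),
    (∀ n ∈ E, g n ≠ 0 ∧ |g n| < (P0 : ℤ) ^ κ) →
    ∃ p : ℕ, p.Prime ∧ P0 < p ∧ p ≤ 2 ^ (2 * κ) * P0 ∧
      E.card ≤ 2 * (E.filter fun n => ¬ (p : ℤ) ∣ g n).card

/-! ## Ternary forms over `ℚ` -/

/-- (HomMul) FACTORS OF FORMS ARE FORMS.

PROOF.  Let `a1 ≤ a2` be the least and the largest degree of a nonzero homogeneous component of `A`
(`A ≠ 0`), `b1 ≤ b2` for `B`.  The component of degree `a1 + b1` of `A B` is the product of the components of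
degrees `a1`, `b1`, so it is not `0`; the same for `a2 + b2`.  So `a1 + b1 = d = a2 + b2`, `a1 = a2`,
`b1 = b2`. -/
def S_HomMul : Prop :=
  ∀ (d : ℕ) (A B : Q3), A * B ≠ 0 → (A * B).IsHomogeneous d →
    ∃ a b : ℕ, a + b = d ∧ A.IsHomogeneous a ∧ B.IsHomogeneous b

/-- (Fac) FACTORISATION OF FORMS.

PROOF.  Strong induction on `d`.  `d = 0`: `F` is a constant `≠ 0`: `q = 0`.  `d ≥ 1`: `F` is not a unit.
If `F` is irreducible: `q = 1`.  Otherwise `F = A B` with nonunits `A`, `B`, forms of degrees `a`, `b`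
(`S_HomMul`), `a, b ≥ 1` (a form of degree `0`, not `0`, is a unit), `a + b = d`; concatenate
(`Fin.append`) the families of `A` and `B`. -/
def S_Fac : Prop :=
  ∀ (d : ℕ) (F : Q3), F ≠ 0 → F.IsHomogeneous d →
    ∃ (q : ℕ) (G : Fin q → Q3) (e : Fin q → ℕ), q ≤ d ∧
      (∀ i, Irreducible (G i) ∧ (G i).IsHomogeneous (e i) ∧ 1 ≤ e i ∧ e i ≤ d) ∧
      ∀ n : Pt, ev n F = 0 → ∃ i, ev n (G i) = 0

/-- (Bez) THE BOUND OF BEZOUT.

PROOF.  `S_m` = forms of degree `m`, `dim S_m = (m + 1)(m + 2) / 2`.  Let `q = |E|`, `m ≥ q + d + h`.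
(1) Evaluation `S_m → ℚ^E` is onto: for `n ∈ E` choose for every other `n' ∈ E` a linear form that is `0` at
`n'` and not at `n` (`Par` fails: `n i * n' j ≠ n j * n' i`, take `n' j * X_i - n' i * X_j`), and a coordinate
`X_i` with `n i ≠ 0`; the product of the `q - 1` linear forms with `X_i ^ (m - q + 1)` is `0` at all the other
points and not at `n`.
(2) The kernel contains `F S_(m-d) + H S_(m-h)`.  `F A = H B` implies `F ∣ B` (`F` is prime, does not divide `H`),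
`B = F C`, `A = H C`: the intersection of the two spaces is `F H S_(m-d-h)` (`C` is a form: `S_HomMul`), so the dimension of the sum is
`s(m-d) + s(m-h) - s(m-d-h)` (`Submodule.finrank_sup_add_finrank_inf_eq`; multiplication by `F` is
injective).  (3) `q ≤ s(m) - s(m-d) - s(m-h) + s(m-d-h) = d h`. -/
def S_Bez : Prop :=
  ∀ (d h : ℕ) (F H : Q3), F.IsHomogeneous d → H.IsHomogeneous h → Irreducible F → ¬ F ∣ H →
    ∀ E : Finset Pt, Indep E → (∀ n ∈ E, ev n F = 0 ∧ ev n H = 0) → E.card ≤ d * h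

/-- (Sing) At most `d (d - 1)` points of a curve are singular.

PROOF.  Some `pderiv j F ≠ 0` (Euler: `∑ X_j ∂_j F = d F`, `d ≥ 1` as `F` is irreducible), of degree
`d - 1`, so `F` does not divide it (total degrees).  `S_Bez`. -/
def S_Sing : Prop :=
  ∀ (d : ℕ) (F : Q3), F.IsHomogeneous d → Irreducible F → ∀ E : Finset Pt, Indep E →
    (∀ n ∈ E, ev n F = 0 ∧ ∀ j, ev n (pderiv j F) = 0) → E.card ≤ d * (d - 1)

/-- (Hgt) THE COEFFICIENTS OF `F`.

PROOF.  `m = (d + 1)(d + 2) / 2` the number of monomials of degree `d`.  `V` = the coefficient vectors of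
the forms of degree `d` which vanish at all points of `E`: by `S_Bez` (`|E| > d^2`) every such form is a
multiple of `F`, so of the form `c F`: `V` has dimension `1`.  `V` is the kernel of the matrix with rows
`(n^β)_β`, `n ∈ E`; so this matrix has rank `m - 1`, and there are `m - 1` rows which span the row
space; their common kernel is `V`.  If `m = 1` then `d = 0`: impossible.  Siegel
(`Int.Matrix.exists_ne_zero_int_vec_norm_le`, `m - 1` equations, `m` unknowns, entries `≤ N ^ d` in absolute value):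
`t ∈ V ∩ ℤ^m`, `t ≠ 0`, `|t| ≤ (m N^d)^(m-1)`.  Divide by the gcd of the entries of `t`. -/
def S_Hgt : Prop :=
  ∀ (d N : ℕ) (F : Q3), 1 ≤ N → F.IsHomogeneous d → Irreducible F → ∀ E : Finset Pt, Indep E →
    (∀ n ∈ E, (∀ i, |n i| ≤ N) ∧ ev n F = 0) → d * d < E.card →
    ∃ F1 : Z3, F1.IsHomogeneous d ∧ (∃ c : ℚ, c ≠ 0 ∧ F1.map (Int.castRingHom ℚ) = C c * F) ∧
      (∀ p : ℕ, p.Prime → ∃ α, ¬ (p : ℤ) ∣ coeff α F1) ∧
      ∀ α, |coeff α F1| ≤ (((d + 1) * (d + 2) / 2 * N ^ d) ^ ((d + 1) * (d + 2) / 2) : ℕ)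

/-- (Lead) THE MONOMIALS MODULO `F`.

PROOF.  Order the exponents by `key β = (log (wt B β), β)` in `ℝ ×ₗ Lex (Fin 3 → ℕ)` (first
`∑ i, β i * log (B i)`, ties by the lexicographic order): injective, additive, into a linearly ordered cancellative
additive monoid.  `α` = the exponent of `F` with the largest key: `wt B β ≤ wt B α` for `β` in the
support.  If `F ∣ H`, `H = F A`, `H ≠ 0`: the largest exponent of `H` is `α + α'`, `α'` the largest
exponent of `A` (the coefficient of `X^(α+α')` in `F A` is the product of the two coefficients: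
`AddMonoidAlgebra.supDegree_mul`, or directly: `MvPolynomial.coeff_mul`, the other terms of the sum are `0`
because `β + β' = α + α'` with `key β ≤ key α`, `key β' ≤ key α'` forces equality).  It is a multiple of
`α`: contradiction.  (The hypothesis on the degree of `H` is not needed.) -/
def S_Lead : Prop :=
  ∀ (B : Fin 3 → ℕ) (F : Q3), (∀ i, 1 ≤ B i) → F ≠ 0 →
    ∃ α ∈ F.support, (∀ β ∈ F.support, wt B β ≤ wt B α) ∧
      ∀ H : Q3, (∀ β ∈ H.support, ¬ α ≤ β) → F ∣ H → H = 0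

/-- (Siz) THE SIZE OF THE DETERMINANTS.

PROOF.  `P = B 0 * B 1 * B 2`, `|α| = d`, `w = wt B α`.  The product of `wt B β` over the `15` quartic
exponents is `P ^ 20`.  The multiples of `α` of degree `4`: `d = 3`: `α + e_0, α + e_1, α + e_2`, product
`w ^ 3 * P`; `d = 4`: `α`; `d ≥ 5`: none.  So `|Mn α| = 12, 14, 15` and `∏_(β ∈ Mn α) wt B β = Q` with
`Q * w ^ 3 * P = P ^ 20`, `Q * w = P ^ 20`, `Q = P ^ 20`.  By hypothesis `w ≥ (B 1) ^ d`, and
`(B 1) ^ 2 * N ≥ P`.  `d = 3`: `Q ^ 2 * w ^ 6 = P ^ 38`, `w ^ 6 * N ^ 9 ≥ (B 1) ^ 18 * N ^ 9 ≥ P ^ 9`, so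
`Q ^ 2 * P ^ 9 ≤ P ^ 38 * N ^ 9`, `Q ^ 2 ≤ P ^ 29 * N ^ 9 ≤ P0 ^ 132 / (15!) ^ 2`.  `d = 4`: `Q ^ 2 * w ^ 2 = P ^ 40`,
`w ^ 2 * N ^ 4 ≥ P ^ 4`: `Q ^ 2 ≤ P ^ 36 * N ^ 4`, and `(14! * Q) ^ 2 < P0 ^ 182`: `P0 ^ 132 ≥ (15!)^2 P ^ 29 N ^ 9`
gives `P0 ^ 50 ≥ P ^ 7` (raise to the power `132`: `P0 ^ (132 * 50) ≥ P ^ (29 * 50) ≥ P ^ (7 * 132)`).
`d ≥ 5`: `Q ^ 2 = P ^ 40`, `(15! Q)^2 < P0 ^ 210`: `P0 ^ 78 ≥ P ^ 11` in the same way
(`29 * 78 = 2262 ≥ 11 * 132 = 1452`; the inequality is strict because `p > P0`, see the statement).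
(`Mn α` by cases: it is convenient to enumerate the exponents by `decide` on `Fin 5 × Fin 5 × Fin 5`, or to
prove the three product formulas by bijections; any proof is fine.) -/
def S_Siz : Prop :=
  ∀ (d N P0 p : ℕ) (B : Fin 3 → ℕ) (α : Fin 3 →₀ ℕ), 3 ≤ d → ∑ i, α i = d → (∀ i, 1 ≤ B i) →
    B 0 ≤ B 1 → B 1 ≤ B 2 → B 2 ≤ N → B 1 ^ d ≤ wt B α →
    Nat.factorial 15 ^ 2 * (B 0 * B 1 * B 2) ^ 29 * N ^ 9 ≤ P0 ^ 132 → P0 < p →
    2 ≤ (Mn α).card ∧ (Mn α).card ≤ 15 ∧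
    Nat.factorial (Mn α).card * ∏ β ∈ Mn α, wt B β < p ^ ((Mn α).card * ((Mn α).card - 1) / 2)

/-- (Rk) If all minors of maximal size vanish the columns are dependent.

PROOF.  Otherwise the columns are independent; the row rank is `r`, so `r` rows are independent and
their determinant is not `0` (as `SD.tMinor` in `MP_776403_ag/SD/Minor.lean`, over `ℚ`). -/
def S_Rk : Prop :=
  ∀ (X : Type) [Finite X] (ι : Type) [Fintype ι] [DecidableEq ι] (A : X → ι → ℚ),
    (∀ x : ι → X, (Matrix.of fun i a => A (x i) a).det = 0) →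
    ∃ c : ι → ℚ, c ≠ 0 ∧ ∀ x, ∑ a, c a * A x a = 0

/-- (Curve) IRREDUCIBLE CURVES OF DEGREE `3, …, 8`.

PROOF.  `P = B 0 * B 1 * B 2`.  If `|E| ≤ 2 * 64` then nothing is to be shown (`C ≥ 128 ^ 132`).  Let
`|E| > 128`.  `P0` = the least natural number with `(15!)^2 P^29 N^9 ≤ P0 ^ 132` and `P0 ≥ 2`; then
`P0 ^ 132 ≤ 2 ^ 132 * (15!)^2 P^29 N^9` (`(P0 - 1)^132` is smaller than the left side, or `P0 = 2`).
(1) `S_Hgt`: `F1`.  By `S_Sing` at least `|E| - d (d-1) ≥ |E| / 2` points `n ∈ E` have some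
`(∂_j F1)(n) ≠ 0`; let `g n` be such a value and `E1` the set of these points.  `|g n| ≤ 45 * 8 * (45 N^8)^45 * N^7`
(coefficients of `F1` at most `(45 N^8)^45`), and this is `< P0 ^ κ` for `κ = 132 * 50` (`P0 ^ 132 ≥ (15!)^2 N^9`,
`(N ^ 9) ^ 50 = N^450 ≥ N^367`, `(15!)^100` is larger than `360 * 45^45`).  (2) `S_Prm`: a prime `p`,
`P0 < p ≤ 2 ^ (2 κ) P0`, and `E2 ⊆ E1` with `|E1| ≤ 2 |E2|`, `p ∤ g n` on `E2`.  `n ∈ E2` is not `0` modulo `p`
(otherwise `p` divides the gradient, `d ≥ 2`).  (3) `S_Cov`: at most `3 d p ≤ 24 p` classes.  (4) One class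
`E3 ⊆ E2`: `α` from `S_Lead`; `wt B α ≥ (B 1)^d`: `F` has an exponent `β` with `β 0 = 0` (otherwise `X_0 ∣ F`, and
`F` irreducible would be of degree `1`), `wt B β ≥ (B 1)^d` as `B 1 ≤ B 2`.  `r = |Mn α|`, `ι = {β // β ∈ Mn α}`; for
every `x : ι → E3` the integer `det (n^β)` is divisible by `p ^ (r(r-1)/2)` (`S_Cls`, `M a` = the monomials,
`e = 4`, `F1`) and of absolute value `≤ r! ∏ wt B β < p ^ (r(r-1)/2)` (`S_Siz`; `Matrix.det_le` or the
expansion: entries of column `β` are at most `wt B β` in absolute value): it is `0`.  `S_Rk`: a nonzero form `H` of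
degree `4`, support in `Mn α`, vanishing on `E3`; `F ∤ H` by `S_Lead`.  `S_Bez`: `|E3| ≤ 4 d ≤ 32`.
(5) `|E| ≤ 2 |E1| ≤ 4 |E2| ≤ 4 * 24 p * 32 ≤ C1 P0`, and `|E|^132 ≤ C1^132 P0^132 ≤ C P^29 N^9`. -/
def S_Curve : Prop :=
  ∃ C : ℕ, ∀ (d N : ℕ) (B : Fin 3 → ℕ) (F : Q3), 3 ≤ d → d ≤ 8 → (∀ i, 1 ≤ B i) →
    B 0 ≤ B 1 → B 1 ≤ B 2 → B 2 ≤ N → F.IsHomogeneous d → Irreducible F →
    ∀ E : Finset Pt, Indep E → (∀ n ∈ E, (∀ i, |n i| ≤ B i) ∧ ev n F = 0) →
    E.card ^ 132 ≤ C * (B 0 * B 1 * B 2) ^ 29 * N ^ 9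

/-- (Ch) CHOICE OF `45` POINTS.

PROOF.  The space `S_8` of octic forms has dimension `45`; the functionals `ev n`, `n ∈ E`, on `S_8` have
no common zero except `0`, so they span the dual space, and `45` of them form a basis. -/
def S_Ch : Prop :=
  ∀ E : Finset Pt, (∀ F : Q3, F.IsHomogeneous 8 → (∀ n ∈ E, ev n F = 0) → F = 0) →
    ∃ E' ⊆ E, E'.card = 45 ∧ ∀ F : Q3, F.IsHomogeneous 8 → (∀ n ∈ E', ev n F = 0) → F = 0

/-- (Main) THE RESULT OF PART (D).  The box may be in any order: `P = B 0 * B 1 * B 2`.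

PROOF.  Permute the coordinates so that `B 0 ≤ B 1 ≤ B 2` (`MvPolynomial.rename`; the statement is symmetric).
Let `C` be large in terms of the constant of `S_Curve`.  If no octic vanishes on `E`: `S_Ch`.  Otherwise
let `F ≠ 0` be a form of degree `8` with `F = 0` on `E`; `F_1, …, F_q` from `S_Fac` (`q ≤ 8`), `E = ⋃ E_i`, `E_i = {n ∈ E : F_i(n) = 0}`.  If `d_i ≥ 3`:
`|E_i|^132 ≤ C' P^29 N^9 < (|E| / 16)^132` for all these `i`; so the union of the `E_i` with `d_i ≤ 2` has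
at least `|E| / 2` elements, and one of them has at least `|E| / 16 ≥ k` elements. -/
def S_Main : Prop :=
  ∃ C : ℕ, ∀ (k N : ℕ) (B : Fin 3 → ℕ), (∀ i, 1 ≤ B i ∧ B i ≤ N) →
    ∀ E : Finset Pt, Indep E → (∀ n ∈ E, ∀ i, |n i| ≤ B i) →
    C * (B 0 * B 1 * B 2) ^ 29 * N ^ 9 < E.card ^ 132 → 16 * k ≤ E.card →
    (∃ E' ⊆ E, E'.card = 45 ∧ ∀ F : Q3, F.IsHomogeneous 8 → (∀ n ∈ E', ev n F = 0) → F = 0) ∨
    (∃ E' ⊆ E, k ≤ E'.card ∧ ∃ F : Q3, F.IsHomogeneous 1 ∧ F ≠ 0 ∧ ∀ n ∈ E', ev n F = 0) ∨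
    (∃ E' ⊆ E, k ≤ E'.card ∧ ∃ F : Q3, F.IsHomogeneous 2 ∧ Irreducible F ∧ ∀ n ∈ E', ev n F = 0)

end Pool.Agent.Lib.HS.D
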